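import Mathlib

/-!
# MP_de303a_co Q2: the order relation of a list

`Bef L a b`: `a` occurs before `b` in `L`.
-/

namespace Pool.Agent.Helper51.TT

variable {α : Type}

/-- `a` occurs before `b` in the list `L`. -/
def Bef (L : List α) (a b : α) : Prop := [a, b].Sublist L

theorem bef_nil (a b : α) : ¬ Bef [] a b := by
  intro h
  have := h.length_le
  simp at this

theorem bef_append {L₁ L₂ : List α} {a b : α} :
    Bef (L₁ ++ L₂) a b ↔ Bef L₁ a b ∨ (a ∈ L₁ ∧ b ∈ L₂) ∨ Bef L₂ a b := by
  unfold Bef
  constructor
  · intro h
    rw [List.sublist_append_iff] at h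
    obtain ⟨l₁, l₂, h1, h2, h3⟩ := h
    match l₁, h1 with
    | [], h1 =>
      right; right
      simp only [List.nil_append] at h1
      rwa [h1]
    | [x], h1 =>
      right; left
      simp only [List.cons_append, List.nil_append, List.cons.injEq] at h1
      obtain ⟨rfl, rfl⟩ := h1
      exact ⟨List.singleton_sublist.1 h2, List.singleton_sublist.1 h3⟩
    | x :: y :: l, h1 =>
      left
      simp only [List.cons_append, List.cons.injEq] at h1
      obtain ⟨rfl, rfl, h4⟩ := h1
      have : l = [] := by
        have := congrArg List.length h4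
        simp at this
        exact List.eq_nil_of_length_eq_zero (by omega)
      subst this
      exact h2
  · rintro (h | ⟨h1, h2⟩ | h)
    · exact h.trans (List.sublist_append_left _ _)
    · have := (List.singleton_sublist.2 h1).append (List.singleton_sublist.2 h2)
      simpa using this
    · exact h.trans (List.sublist_append_right _ _)

theorem bef_cons {x : α} {L : List α} {a b : α} :
    Bef (x :: L) a b ↔ (a = x ∧ b ∈ L) ∨ Bef L a b := by
  have : x :: L = [x] ++ L := rfl
  rw [this, bef_append]
  have h1 : ¬ Bef [x] a b := by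
    intro h
    have := h.length_le
    simp at this
  simp [h1]

theorem Bef.left {L : List α} {a b : α} (h : Bef L a b) : a ∈ L :=
  h.subset (by simp)

theorem Bef.right {L : List α} {a b : α} (h : Bef L a b) : b ∈ L :=
  h.subset (by simp)

theorem Bef.ne {L : List α} {a b : α} (h : Bef L a b) (hn : L.Nodup) : a ≠ b := by
  intro hab
  subst hab
  have := hn.sublist h
  simp at this

theorem Bef.asymm {L : List α} {a b : α} (hn : L.Nodup) (h : Bef L a b) (h' : Bef L b a) : False := by
  induction L with
  | nil => exact bef_nil _ _ h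
  | cons x L ih =>
    rw [bef_cons] at h h'
    rw [List.nodup_cons] at hn
    rcases h with ⟨rfl, h⟩ | h
    · rcases h' with ⟨rfl, h'⟩ | h'
      · exact hn.1 h
      · exact hn.1 h'.right
    · rcases h' with ⟨rfl, h'⟩ | h'
      · exact hn.1 h.right
      · exact ih hn.2 h h'

theorem bef_total {L : List α} {a b : α} (ha : a ∈ L) (hb : b ∈ L) (hab : a ≠ b) :
    Bef L a b ∨ Bef L b a := by
  induction L with
  | nil => simp at ha
  | cons x L ih =>
    rw [bef_cons, bef_cons]
    rw [List.mem_cons] at ha hb
    rcases ha with rfl | ha <;> rcases hb with rfl | hb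
    · exact absurd rfl hab
    · exact Or.inl (Or.inl ⟨rfl, hb⟩)
    · exact Or.inr (Or.inl ⟨rfl, ha⟩)
    · rcases ih ha hb with h | h
      · exact Or.inl (Or.inr h)
      · exact Or.inr (Or.inr h)

/-- Restriction to a middle block. -/
theorem bef_mid {A B C : List α} (hn : (A ++ B ++ C).Nodup) {a w b : α} (ha : a ∈ B) (hb : b ∈ B)
    (h1 : Bef (A ++ B ++ C) a w) (h2 : Bef (A ++ B ++ C) w b) : Bef B a w ∧ Bef B w b := by
  have hd : ∀ x, x ∈ A → x ∈ B → False := by
    intro x hx hx'
    rw [List.append_assoc, List.nodup_append] at hn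
    exact hn.2.2 x hx x (List.mem_append_left _ hx') rfl
  have hd' : ∀ x, x ∈ C → x ∈ A ++ B → False := by
    intro x hx hx'
    rw [List.nodup_append] at hn
    exact hn.2.2 x hx' x hx rfl
  rw [bef_append, bef_append] at h1 h2
  rcases h1 with (h1 | ⟨h1, h1'⟩ | h1) | ⟨h1, h1'⟩ | h1
  · exact (hd _ h1.left ha).elim
  · exact (hd _ h1 ha).elim
  · rcases h2 with (h2 | ⟨h2, h2'⟩ | h2) | ⟨h2, h2'⟩ | h2
    · exact (hd _ h2.right hb).elim
    · exact (hd _ h2 h1.right).elim
    · exact ⟨h1, h2⟩
    · exact (hd' _ h2' (List.mem_append_right _ hb)).elim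
    · exact (hd' _ h2.right (List.mem_append_right _ hb)).elim
  · rcases h2 with (h2 | ⟨h2, h2'⟩ | h2) | ⟨h2, h2'⟩ | h2
    · exact (hd _ h2.right hb).elim
    · exact (hd' _ h1' (List.mem_append_left _ h2)).elim
    · exact (hd' _ h1' (List.mem_append_right _ h2.left)).elim
    · exact (hd' _ h2' (List.mem_append_right _ hb)).elim
    · exact (hd' _ h2.right (List.mem_append_right _ hb)).elim
  · exact (hd' _ h1.left (List.mem_append_right _ ha)).elim

/-- Index in a list and `Bef`. -/
theorem bef_iff_idxOf [DecidableEq α] {L : List α} (hn : L.Nodup) {a b : α} (ha : a ∈ L)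
    (hb : b ∈ L) : Bef L a b ↔ L.idxOf a < L.idxOf b := by
  induction L with
  | nil => simp at ha
  | cons x L ih =>
    rw [bef_cons]
    rw [List.nodup_cons] at hn
    rw [List.mem_cons] at ha hb
    by_cases hax : a = x
    · subst hax
      rw [List.idxOf_cons_self]
      by_cases hbx : b = a
      · subst hbx
        rw [List.idxOf_cons_self]
        constructor
        · rintro (⟨-, h⟩ | h)
          · exact (hn.1 h).elim
          · exact (hn.1 h.left).elim
        · intro h; omega
      · rw [List.idxOf_cons_ne _ (fun h => hbx h.symm)]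
        constructor
        · intro _; omega
        · intro _
          left
          exact ⟨rfl, hb.resolve_left hbx⟩
    · have ha' := ha.resolve_left hax
      rw [List.idxOf_cons_ne _ (fun h => hax h.symm)]
      by_cases hbx : b = x
      · subst hbx
        rw [List.idxOf_cons_self]
        constructor
        · rintro (⟨h, -⟩ | h)
          · exact (hax h).elim
          · exact (hn.1 h.right).elim
        · intro h; omega
      · have hb' := hb.resolve_left hbx
        rw [List.idxOf_cons_ne _ (fun h => hbx h.symm)]
        rw [Nat.succ_lt_succ_iff, ← ih hn.2 ha' hb']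
        constructor
        · rintro (⟨h, -⟩ | h)
          · exact (hax h).elim
          · exact h
        · exact Or.inr

end Pool.Agent.Helper51.TT
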