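import Pool.Agent.Helper51.TT.Ind
import Pool.Agent.Helper40.PartA

/-!
# MP_de303a_co Q2: from the main induction to a drawing
-/

namespace Pool.Agent.Helper51.TT

open Pool.Agent.Helper4.UpLoc

theorem bef_of_idxOf {α : Type} [DecidableEq α] {L : List α} {a b : α} (hb : b ∈ L)
    (h : L.idxOf a < L.idxOf b) : Bef L a b := by
  induction L with
  | nil => simp at hb
  | cons x L ih =>
    rw [bef_cons]
    rw [List.mem_cons] at hb
    by_cases hbx : b = x
    · subst hbx
      rw [List.idxOf_cons_self] at h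
      omega
    · by_cases hax : a = x
      · exact Or.inl ⟨hax, hb.resolve_left hbx⟩
      · rw [List.idxOf_cons_ne _ (fun h => hax h.symm),
          List.idxOf_cons_ne _ (fun h => hbx h.symm)] at h
        exact Or.inr (ih (hb.resolve_left hbx) (Nat.succ_lt_succ_iff.1 h))

/-- The index of an element in a list. -/
noncomputable def ix {α : Type} (L : List α) (a : α) : ℤ :=
  ((@List.idxOf α (@instBEqOfDecidableEq α (Classical.decEq α)) a L : ℕ) : ℤ)

theorem bef_of_ix {α : Type} {L : List α} {a b : α} (hb : b ∈ L) (h : ix L a < ix L b) :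
    Bef L a b := by
  let _ := Classical.decEq α
  exact bef_of_idxOf hb (Int.ofNat_lt.1 h)

theorem ix_of_bef {α : Type} {L : List α} {a b : α} (hn : L.Nodup) (h : Bef L a b) :
    ix L a < ix L b := by
  let _ := Classical.decEq α
  exact Int.ofNat_lt.2 ((bef_iff_idxOf hn h.left h.right).1 h)

theorem ix_inj {α : Type} {L : List α} {a b : α} (ha : a ∈ L) (h : ix L a = ix L b) : a = b := by
  let _ := Classical.decEq α
  exact (List.idxOf_inj ha).1 (Int.ofNat_inj.1 h)

theorem ix_cons_self {α : Type} (L : List α) (a : α) : ix (a :: L) a = 0 := by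
  let _ := Classical.decEq α
  have : (a :: L).idxOf a = 0 := List.idxOf_cons_self
  exact Int.ofNat_inj.2 this

theorem ix_nonneg {α : Type} (L : List α) (a : α) : 0 ≤ ix L a := Int.natCast_nonneg _

theorem ix_mem {α : Type} {L : List α} {a b : α} (hb : b ∈ L) (h : ix L a < ix L b) : a ∈ L := by
  let _ := Classical.decEq α
  have h' := Int.ofNat_lt.1 h
  by_contra hn
  have h1 := List.idxOf_eq_length hn
  have h2 := List.idxOf_lt_length_iff.2 hb
  have h3 := h1 ▸ h'
  exact absurd (lt_trans h3 h2) (lt_irrefl _)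

variable {V : Type}

theorem adj_lu {G : Set (V × V)} {a b : V} (h : (a, b) ∈ G) {p q : V} (hp : p = a ∨ p = b)
    (hq : q = a ∨ q = b) : p = q ∨ Adj G p q := by
  rcases hp with rfl | rfl <;> rcases hq with rfl | rfl
  · exact Or.inl rfl
  · exact Or.inr (Or.inl h)
  · exact Or.inr (Or.inr h)
  · exact Or.inl rfl

/-- **The bar representation.** -/
theorem bars (t : T2 V) (a b : V) (hnd : (a :: b :: t.labels).Nodup) :
    ∃ (h : V → ℤ) (x : V × V → ℤ), Set.InjOn h {w | w ∈ a :: b :: t.labels} ∧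
      Set.InjOn x (t.allE a b) ∧ (∀ e ∈ t.allE a b, h e.1 < h e.2) ∧
      ∀ e ∈ t.allE a b, ∀ w, Cross h x (t.allE a b) e w → Near (t.allE a b) e w := by
  classical
  have hG : ∀ e ∈ t.edges a b, e ∈ t.allE a b := fun e he => Or.inr he
  have hab : (a, b) ∈ t.allE a b := Or.inl rfl
  obtain ⟨p, hp, hv, hx⟩ := (main_ind (t.allE a b) t a b hnd hG hab).pok hnd hG hab
  have ha : a ∉ p.vs := by
    rw [hv.mem_iff]
    simp only [List.nodup_cons, List.mem_cons, not_or] at hnd
    exact hnd.1.2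
  have hb : b ∉ p.vs := by
    rw [hv.mem_iff]
    simp only [List.nodup_cons] at hnd
    exact hnd.2.1
  set W := p.word a b with hW
  set L := (a, b) :: (p.Q ++ p.X) with hL
  have mE : ∀ e, e ∈ t.allE a b ↔ e = (a, b) ∨ e ∈ p.Q ∨ e ∈ p.X := by
    intro e
    have : e ∈ t.edges a b ↔ e ∈ p.Q ∨ e ∈ p.X := by
      rw [← hx.mem_iff, List.mem_append, or_comm]
    change e = (a, b) ∨ e ∈ t.edges a b ↔ _
    rw [this]
  have mL : ∀ e, e ∈ t.allE a b ↔ e ∈ L := by
    intro e
    rw [mE, hL, List.mem_cons, List.mem_append]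
  have mW : ∀ w, w ∈ W ↔ w ∈ a :: b :: t.labels := by
    intro w
    rw [hW, mem_word, List.mem_cons, List.mem_cons, hv.mem_iff]
  have hup : ∀ e ∈ t.allE a b, Bef W e.1 e.2 := by
    intro e he
    rw [mE] at he
    rcases he with rfl | he | he
    · rw [hW]
      unfold Pr.word
      rw [bef_append, bef_cons]
      refine Or.inr (Or.inr (Or.inl ⟨rfl, ?_⟩))
      simp
    · exact hp.oq e he
    · exact hp.ox e he
  refine ⟨ix W, ix L, ?_, ?_, ?_, ?_⟩
  · intro v hv' w hw hvw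
    exact ix_inj ((mW v).2 hv') hvw
  · intro v hv' w hw hvw
    exact ix_inj ((mL v).1 hv') hvw
  · intro e he
    exact ix_of_bef hp.nd (hup e he)
  · intro e he w hc
    obtain ⟨c1, c2, c3, c4, e₁, he₁, e₂, he₂, i1, i2, x1, x2⟩ := hc
    have hwW : w ∈ W := ix_mem (hup e he).right c4
    have b1 : Bef W e.1 w := bef_of_ix hwW c3
    have b2 : Bef W w e.2 := bef_of_ix (hup e he).right c4
    have y1 : Bef L e₁ e := bef_of_ix ((mL e).1 he) x1
    have y2 : Bef L e e₂ := bef_of_ix ((mL e₂).1 he₂) x2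
    have hne : e ≠ (a, b) := by
      rintro rfl
      rw [hL, ix_cons_self] at x1
      exact absurd x1 (not_lt.2 (ix_nonneg _ _))
    have hne1 : ∀ e ∈ p.X, e ∉ p.Q := by
      intro e he he'
      obtain ⟨h1, h2⟩ := hp.xw e he
      rcases hp.qw e he' with ⟨-, h | h⟩ | ⟨-, h | h⟩
      · exact ha (h ▸ h2)
      · exact hb (h ▸ h2)
      · exact ha (h ▸ h1)
      · exact hb (h ▸ h1)
    rw [hL, bef_cons, bef_append] at y1 y2
    rw [mE] at he
    rcases he with he | he | he
    · exact absurd he hne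
    · -- a port edge
      have hz : ∃ z q, Inc z e ∧ (q = a ∨ q = b) ∧ Adj (t.allE a b) z q := by
        rcases hp.qw e he with ⟨h1, h2⟩ | ⟨h1, h2⟩
        · exact ⟨e.1, e.2, Or.inl rfl, h2, Or.inl ((mE e).2 (Or.inr (Or.inl he)))⟩
        · exact ⟨e.2, e.1, Or.inr rfl, h2, Or.inr ((mE e).2 (Or.inr (Or.inl he)))⟩
      obtain ⟨z, q, hz1, hq, hzq⟩ := hz
      -- the vertex `w`
      have hw : ∃ z' q', (q' = a ∨ q' = b) ∧ Adj (t.allE a b) q' z' ∧
          (z' = w ∨ Adj (t.allE a b) z' w) := by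
        have h1 : e₁ = (a, b) ∨ e₁ ∈ p.Q := by
          rcases y1 with ⟨h, -⟩ | h | ⟨h, -⟩ | h
          · exact Or.inl h
          · exact Or.inr h.left
          · exact Or.inr h
          · exact absurd he (hne1 e h.right)
        rcases h1 with rfl | h1
        · rcases i1 with h | h
          · exact ⟨a, b, Or.inr rfl, Or.inr hab, Or.inl h.symm⟩
          · exact ⟨b, a, Or.inl rfl, Or.inl hab, Or.inl h.symm⟩
        · have hE := (mE e₁).2 (Or.inr (Or.inl h1))
          rcases hp.qw e₁ h1 with ⟨h2, h3⟩ | ⟨h2, h3⟩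
          · rcases i1 with h | h
            · exact ⟨w, e₁.2, h3, Or.inr (by rw [h]; exact hE), Or.inl rfl⟩
            · exact ⟨e₁.1, e₁.2, h3, Or.inr hE, Or.inr (Or.inl (by rw [h]; exact hE))⟩
          · rcases i1 with h | h
            · exact ⟨e₁.2, e₁.1, h3, Or.inl hE, Or.inr (Or.inr (by rw [h]; exact hE))⟩
            · exact ⟨w, e₁.1, h3, Or.inl (by rw [h]; exact hE), Or.inl rfl⟩
      obtain ⟨z', q', hq', hz', hw'⟩ := hw
      exact ⟨z, q, q', z', hz1, hzq, adj_lu hab hq hq', hz', hw'⟩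
    · have heQ := hne1 e he
      have y2' : Bef p.X e e₂ := by
        rcases y2 with ⟨h, -⟩ | h | ⟨h, -⟩ | h
        · exact absurd h hne
        · exact absurd h.left heQ
        · exact absurd h heQ
        · exact h
      have hwv : w ∈ p.vs := by
        rcases i2 with rfl | rfl
        · exact (hp.xw e₂ y2'.right).1
        · exact (hp.xw e₂ y2'.right).2
      refine hp.cr e he w b1 b2 e₁ e₂ i1 i2 ?_ y2'
      rcases y1 with ⟨h, -⟩ | h | ⟨h, -⟩ | h
      · subst h
        rcases i1 with h | h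
        · change w = a at h
          exact absurd (h ▸ hwv) ha
        · change w = b at h
          exact absurd (h ▸ hwv) hb
      · exact absurd h.right heQ
      · exact Or.inl h
      · exact Or.inr h

section count

variable [Fintype V] {G : Set (V × V)} {Δ : ℕ}

open scoped Classical in
/-- The edges at a vertex. -/
noncomputable def edF (G : Set (V × V)) (v : V) : Finset (V × V) :=
  Finset.univ.filter (fun e => e ∈ G ∧ Inc v e)

open scoped Classical in
/-- The neighbours of a vertex. -/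
noncomputable def nbF (G : Set (V × V)) (v : V) : Finset V :=
  Finset.univ.filter (fun y => Adj G v y)

open scoped Classical in
/-- The closed neighbourhood. -/
noncomputable def ncF (G : Set (V × V)) (v : V) : Finset V := insert v (nbF G v)

theorem mem_edF {v : V} {e : V × V} : e ∈ edF G v ↔ e ∈ G ∧ Inc v e := by
  simp [edF]

theorem mem_nbF {v y : V} : y ∈ nbF G v ↔ Adj G v y := by
  simp [nbF]

theorem mem_ncF {v y : V} : y ∈ ncF G v ↔ v = y ∨ Adj G v y := by
  classical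
  rw [ncF, Finset.mem_insert, mem_nbF, eq_comm]

theorem card_edF (hΔ : ∀ v, {e | e ∈ G ∧ Inc v e}.ncard ≤ Δ) (v : V) : (edF G v).card ≤ Δ := by
  refine le_trans (le_of_eq ?_) (hΔ v)
  rw [← Set.ncard_coe_finset]
  congr 1
  ext e
  rw [Finset.mem_coe, mem_edF]
  rfl

theorem card_nbF (hΔ : ∀ v, {e | e ∈ G ∧ Inc v e}.ncard ≤ Δ) (v : V) : (nbF G v).card ≤ Δ := by
  classical
  refine le_trans ?_ (card_edF hΔ v)
  refine le_trans (Finset.card_le_card (t := (edF G v).image
    (fun e => if e.1 = v then e.2 else e.1)) ?_) Finset.card_image_le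
  intro y hy
  rw [mem_nbF] at hy
  rw [Finset.mem_image]
  rcases hy with h | h
  · exact ⟨(v, y), mem_edF.2 ⟨h, Or.inl rfl⟩, by simp⟩
  · refine ⟨(y, v), mem_edF.2 ⟨h, Or.inr rfl⟩, ?_⟩
    by_cases hc : y = v
    · simp [hc]
    · simp [hc]

theorem card_ncF (hΔ : ∀ v, {e | e ∈ G ∧ Inc v e}.ncard ≤ Δ) (v : V) :
    (ncF G v).card ≤ Δ + 1 := by
  classical
  exact (Finset.card_insert_le _ _).trans (Nat.add_le_add_right (card_nbF hΔ v) 1)

/-- Few vertices are near a given edge. -/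
theorem near_w (hΔ : ∀ v, {e | e ∈ G ∧ Inc v e}.ncard ≤ Δ) (e : V × V) :
    {w | Near G e w}.ncard ≤ 2 * Δ * (Δ + 1) * Δ * (Δ + 1) := by
  classical
  set S := (((({e.1, e.2} : Finset V).biUnion (nbF G)).biUnion (ncF G)).biUnion
    (nbF G)).biUnion (ncF G) with hS
  have hsub : {w | Near G e w} ⊆ (S : Set V) := by
    rintro w ⟨z, p, q, z', h1, h2, h3, h4, h5⟩
    rw [Finset.mem_coe, hS]
    simp only [Finset.mem_biUnion]
    refine ⟨z', ⟨q, ⟨p, ⟨z, ?_, mem_nbF.2 h2⟩, mem_ncF.2 h3⟩, mem_nbF.2 h4⟩, mem_ncF.2 h5⟩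
    rw [Finset.mem_insert, Finset.mem_singleton]
    exact h1
  refine (Set.ncard_le_ncard hsub (Set.toFinite _)).trans ?_
  rw [Set.ncard_coe_finset, hS]
  refine (Finset.card_biUnion_le_card_mul _ _ _ (fun v _ => card_ncF hΔ v)).trans ?_
  refine Nat.mul_le_mul_right _ ?_
  refine (Finset.card_biUnion_le_card_mul _ _ _ (fun v _ => card_nbF hΔ v)).trans ?_
  refine Nat.mul_le_mul_right _ ?_
  refine (Finset.card_biUnion_le_card_mul _ _ _ (fun v _ => card_ncF hΔ v)).trans ?_
  refine Nat.mul_le_mul_right _ ?_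
  refine (Finset.card_biUnion_le_card_mul _ _ _ (fun v _ => card_nbF hΔ v)).trans ?_
  exact Nat.mul_le_mul_right _ Finset.card_le_two

/-- Few edges are near a given vertex. -/
theorem near_e (hΔ : ∀ v, {e | e ∈ G ∧ Inc v e}.ncard ≤ Δ) (w : V) :
    {e | e ∈ G ∧ Near G e w}.ncard ≤ (Δ + 1) * Δ * (Δ + 1) * Δ * Δ := by
  classical
  set S := ((((ncF G w).biUnion (nbF G)).biUnion (ncF G)).biUnion (nbF G)).biUnion (edF G) with hS
  have hsub : {e | e ∈ G ∧ Near G e w} ⊆ (S : Set (V × V)) := by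
    rintro e ⟨he, z, p, q, z', h1, h2, h3, h4, h5⟩
    rw [Finset.mem_coe, hS]
    simp only [Finset.mem_biUnion]
    refine ⟨z, ⟨p, ⟨q, ⟨z', ?_, mem_nbF.2 (adj_symm h4)⟩, mem_ncF.2 ?_⟩, mem_nbF.2 (adj_symm h2)⟩,
      mem_edF.2 ⟨he, h1⟩⟩
    · exact mem_ncF.2 (h5.imp Eq.symm adj_symm)
    · exact h3.imp Eq.symm adj_symm
  refine (Set.ncard_le_ncard hsub (Set.toFinite _)).trans ?_
  rw [Set.ncard_coe_finset, hS]
  refine (Finset.card_biUnion_le_card_mul _ _ _ (fun v _ => card_edF hΔ v)).trans ?_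
  refine Nat.mul_le_mul_right _ ?_
  refine (Finset.card_biUnion_le_card_mul _ _ _ (fun v _ => card_nbF hΔ v)).trans ?_
  refine Nat.mul_le_mul_right _ ?_
  refine (Finset.card_biUnion_le_card_mul _ _ _ (fun v _ => card_ncF hΔ v)).trans ?_
  refine Nat.mul_le_mul_right _ ?_
  refine (Finset.card_biUnion_le_card_mul _ _ _ (fun v _ => card_nbF hΔ v)).trans ?_
  exact Nat.mul_le_mul_right _ (card_ncF hΔ w)

end count

/-- The drawing of the DAG described by a tree of triangles. -/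
theorem tree_drawing [Fintype V] (t : T2 V) (a b : V) (Δ : ℕ)
    (hnd : (a :: b :: t.labels).Nodup) (hall : ∀ v, v ∈ a :: b :: t.labels)
    (hΔ : ∀ v, {e | e ∈ t.allE a b ∧ Inc v e}.ncard ≤ Δ) (A : V → V → Prop)
    (hA : ∀ u v, A u v → (u, v) ∈ t.allE a b) :
    ∃ D : UpwardDrawing A, D.IsKPlanar (4 * Δ ^ 3 * (Δ + 1) ^ 2) := by
  obtain ⟨h, x, h1, h2, h3, h4⟩ := bars t a b hnd
  obtain ⟨D, hD⟩ := partA V inferInstance (t.allE a b) h x
    (2 * Δ * (Δ + 1) * Δ * (Δ + 1)) ((Δ + 1) * Δ * (Δ + 1) * Δ * Δ) Δ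
    (fun v w hvw => h1 (hall v) (hall w) hvw) h2 h3
    (fun w => (Set.ncard_le_ncard (t := {e | e ∈ t.allE a b ∧ Near (t.allE a b) e w})
      (fun e he => ⟨he.1, h4 e he.1 w he.2⟩) (Set.toFinite _)).trans (near_e hΔ w))
    (fun e he => (Set.ncard_le_ncard (t := {w | Near (t.allE a b) e w})
      (fun w hw => h4 e he w hw) (Set.toFinite _)).trans (near_w hΔ e)) hΔ A hA
  refine ⟨D, ?_⟩
  have : 2 * ((Δ + 1) * Δ * (Δ + 1) * Δ * Δ) + Δ * (2 * Δ * (Δ + 1) * Δ * (Δ + 1)) =
      4 * Δ ^ 3 * (Δ + 1) ^ 2 := by ring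
  rwa [this] at hD

end Pool.Agent.Helper51.TT
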