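import Pool.Agent.Helper51.TT.Bef
import Pool.Agent.Helper4.UpLoc.Defs

/-!
# MP_de303a_co Q2: hulls, processes and the merge operation
-/

namespace Pool.Agent.Helper51.TT

open Pool.Agent.Helper4.UpLoc

variable {V : Type}

/-- A hull of a process: `W` the vertical order, `X` the edges in the boxes from left to right, `C`
the edges in the column, `K` the vertices of the process. -/
structure Hl (V : Type) where
  W : List V
  X : List (V × V)
  C : List (V × V)
  K : List V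

/-- The result of a process: the words `D`, `I`, `U`, the edges from left to right, and the port
edges. -/
structure Pr (V : Type) where
  D : List V
  I : List V
  U : List V
  X : List (V × V)
  Q : List (V × V)

/-- The vertices. -/
def Pr.vs (p : Pr V) : List V := p.D ++ (p.I ++ p.U)

/-- The vertical order with the ports `l`, `u`. -/
def Pr.word (p : Pr V) (l u : V) : List V := p.D ++ l :: (p.I ++ u :: p.U)

/-- The properties of a hull; `N g w` says that the edge `g` and the vertex `w` are near. -/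
structure HOK (N : V × V → V → Prop) (H : Hl V) : Prop where
  nd : H.W.Nodup
  kw : ∀ z ∈ H.K, z ∈ H.W
  xw : ∀ g ∈ H.X, (g.1 ∈ H.W ∧ g.1 ∉ H.K) ∧ (g.2 ∈ H.W ∧ g.2 ∉ H.K)
  cw : ∀ g ∈ H.C, g.1 ∈ H.W ∧ g.2 ∈ H.W ∧ (g.1 ∈ H.K ∨ g.2 ∈ H.K)
  ox : ∀ g ∈ H.X, Bef H.W g.1 g.2
  oc : ∀ g ∈ H.C, Bef H.W g.1 g.2
  cr : ∀ g ∈ H.X, ∀ w, w ∉ H.K → Bef H.W g.1 w → Bef H.W w g.2 → ∀ e₁ e₂, Inc w e₁ → Inc w e₂ →
    (e₁ ∈ H.C ∨ Bef H.X e₁ g) → Bef H.X g e₂ → N g w

/-- The properties of the result of a process. -/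
structure POK (N : V × V → V → Prop) (p : Pr V) (l u : V) : Prop where
  nd : (p.word l u).Nodup
  xw : ∀ g ∈ p.X, g.1 ∈ p.vs ∧ g.2 ∈ p.vs
  qw : ∀ g ∈ p.Q, (g.1 ∈ p.vs ∧ (g.2 = l ∨ g.2 = u)) ∨ (g.2 ∈ p.vs ∧ (g.1 = l ∨ g.1 = u))
  ox : ∀ g ∈ p.X, Bef (p.word l u) g.1 g.2
  oq : ∀ g ∈ p.Q, Bef (p.word l u) g.1 g.2
  cr : ∀ g ∈ p.X, ∀ w, Bef (p.word l u) g.1 w → Bef (p.word l u) w g.2 →
    ∀ e₁ e₂, Inc w e₁ → Inc w e₂ → (e₁ ∈ p.Q ∨ Bef p.X e₁ g) → Bef p.X g e₂ → N g w

theorem mem_word {p : Pr V} {l u x : V} : x ∈ p.word l u ↔ x = l ∨ x = u ∨ x ∈ p.vs := by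
  unfold Pr.word Pr.vs
  simp only [List.mem_append, List.mem_cons]
  tauto

theorem hok_single (N : V × V → V → Prop) (w : V) (K : List V) (hK : ∀ z ∈ K, z = w) :
    HOK N ⟨[w], [], [], K⟩ := by
  constructor
  · simp
  · intro z hz
    simp [hK z hz]
  · intro g hg; simp at hg
  · intro g hg; simp at hg
  · intro g hg; simp at hg
  · intro g hg; simp at hg
  · intro g hg; simp at hg

theorem nodup_app {A B : List V} (hA : A.Nodup) (hB : B.Nodup) (h : ∀ x ∈ A, x ∉ B) :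
    (A ++ B).Nodup := by
  rw [List.nodup_append]
  exact ⟨hA, hB, fun a ha b hb hab => h a ha (hab ▸ hb)⟩

theorem inc_mem {g : V × V} {w : V} (h : Inc w g) {P : V → Prop} (h1 : P g.1) (h2 : P g.2) :
    P w := by
  rcases h with rfl | rfl
  · exact h1
  · exact h2

/-- The crossing condition for an edge `g` of a part `H` of a larger hull. -/
theorem cr_part {N : V × V → V → Prop} {H : Hl V} (h : HOK N H) {A C : List V}
    {P Q CC : List (V × V)} (hn : (A ++ H.W ++ C).Nodup)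
    (hP : ∀ e ∈ P, e.1 ∉ H.W ∧ e.2 ∉ H.W) (hQ : ∀ e ∈ Q, e.1 ∉ H.W ∧ e.2 ∉ H.W)
    {K : List V} (hK : ∀ z ∈ H.W, z ∈ K ↔ z ∈ H.K)
    (hC : ∀ e ∈ CC, e ∈ H.C ∨ ∀ w, Inc w e → w ∈ H.W → w ∈ H.K) :
    ∀ g ∈ H.X, ∀ w, w ∉ K → Bef (A ++ H.W ++ C) g.1 w → Bef (A ++ H.W ++ C) w g.2 →
      ∀ e₁ e₂, Inc w e₁ → Inc w e₂ → (e₁ ∈ CC ∨ Bef (P ++ (H.X ++ Q)) e₁ g) →
      Bef (P ++ (H.X ++ Q)) g e₂ → N g w := by
  intro g hg w hwK hb1 hb2 e₁ e₂ hi1 hi2 he1 he2
  obtain ⟨⟨g1, -⟩, g2, -⟩ := h.xw g hg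
  obtain ⟨c1, c2⟩ := bef_mid hn g1 g2 hb1 hb2
  have hwW : w ∈ H.W := c1.right
  have hwK' : w ∉ H.K := fun hc => hwK ((hK w hwW).2 hc)
  have nP : ∀ e, Inc w e → e ∈ P → False := fun e hi he =>
    inc_mem (P := fun x => x ∉ H.W) hi (hP e he).1 (hP e he).2 hwW
  have nQ : ∀ e, Inc w e → e ∈ Q → False := fun e hi he =>
    inc_mem (P := fun x => x ∉ H.W) hi (hQ e he).1 (hQ e he).2 hwW
  have gP : g ∉ P := fun hc => (hP g hc).1 g1
  have gQ : g ∉ Q := fun hc => (hQ g hc).1 g1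
  refine h.cr g hg w hwK' c1 c2 e₁ e₂ hi1 hi2 ?_ ?_
  · rcases he1 with he1 | he1
    · rcases hC e₁ he1 with hc | hc
      · exact Or.inl hc
      · exact absurd (hc w hi1 hwW) hwK'
    · right
      rw [bef_append, bef_append] at he1
      rcases he1 with h1 | ⟨h1, -⟩ | h1 | ⟨-, h1⟩ | h1
      · exact (gP h1.right).elim
      · exact (nP e₁ hi1 h1).elim
      · exact h1
      · exact (gQ h1).elim
      · exact (gQ h1.right).elim
  · rw [bef_append, bef_append] at he2
    rcases he2 with h1 | ⟨h1, -⟩ | h1 | ⟨-, h1⟩ | h1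
    · exact (gP h1.left).elim
    · exact (gP h1).elim
    · exact h1
    · exact (nQ e₂ hi2 h1).elim
    · exact (nQ e₂ hi2 h1.right).elim

/-- **Merge.** -/
theorem merge_ok {N : V × V → V → Prop} {H₁ H₂ : Hl V} {p : Pr V} {y y' : V}
    (h1 : HOK N H₁) (h2 : HOK N H₂) (hp : POK N p y y') (hy : y ∈ H₁.K) (hy' : y' ∈ H₂.K)
    (d12 : ∀ x ∈ H₁.W, x ∉ H₂.W) (d1 : ∀ x ∈ p.vs, x ∉ H₁.W) (d2 : ∀ x ∈ p.vs, x ∉ H₂.W) :
    HOK N ⟨p.D ++ (H₁.W ++ (p.I ++ (H₂.W ++ p.U))), H₁.X ++ (H₂.X ++ p.X),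
      (y, y') :: (H₁.C ++ (H₂.C ++ p.Q)), H₁.K ++ H₂.K⟩ := by
  have hyW := h1.kw y hy
  have hyW' := h2.kw y' hy'
  have hvs : ∀ x, x ∈ p.vs ↔ x ∈ p.D ∨ x ∈ p.I ∨ x ∈ p.U := by
    intro x; simp [Pr.vs]
  have hW : ∀ x, x ∈ p.D ++ (H₁.W ++ (p.I ++ (H₂.W ++ p.U))) ↔
      x ∈ p.vs ∨ x ∈ H₁.W ∨ x ∈ H₂.W := by
    intro x
    rw [hvs]
    simp only [List.mem_append]
    tauto
  have hndp := hp.nd
  unfold Pr.word at hndp
  have hnd : (p.D ++ (H₁.W ++ (p.I ++ (H₂.W ++ p.U)))).Nodup := by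
    rw [List.nodup_append, List.nodup_cons, List.nodup_append, List.nodup_cons] at hndp
    obtain ⟨n1, ⟨n2, n3, ⟨n4, n5⟩, n6⟩, n7⟩ := hndp
    refine nodup_app n1 (nodup_app h1.nd (nodup_app n3 (nodup_app h2.nd n5 ?_) ?_) ?_) ?_
    · intro x hx hx'
      exact d2 x ((hvs x).2 (Or.inr (Or.inr hx'))) hx
    · intro x hx hx'
      rw [List.mem_append] at hx'
      rcases hx' with hx' | hx'
      · exact d2 x ((hvs x).2 (Or.inr (Or.inl hx))) hx'
      · exact n6 x hx x (List.mem_cons_of_mem _ hx') rfl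
    · intro x hx hx'
      simp only [List.mem_append] at hx'
      rcases hx' with hx' | hx' | hx'
      · exact d1 x ((hvs x).2 (Or.inr (Or.inl hx'))) hx
      · exact d12 x hx hx'
      · exact d1 x ((hvs x).2 (Or.inr (Or.inr hx'))) hx
    · intro x hx hx'
      simp only [List.mem_append] at hx'
      rcases hx' with hx' | hx' | hx' | hx'
      · exact d1 x ((hvs x).2 (Or.inl hx)) hx'
      · exact n7 x hx x (by simp [hx']) rfl
      · exact d2 x ((hvs x).2 (Or.inl hx)) hx'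
      · exact n7 x hx x (by simp [hx']) rfl
  -- embeddings of the orders
  have emb1 : ∀ a b, Bef H₁.W a b → Bef (p.D ++ (H₁.W ++ (p.I ++ (H₂.W ++ p.U)))) a b := by
    intro a b h
    rw [bef_append, bef_append]
    exact Or.inr (Or.inr (Or.inl h))
  have emb2 : ∀ a b, Bef H₂.W a b → Bef (p.D ++ (H₁.W ++ (p.I ++ (H₂.W ++ p.U)))) a b := by
    intro a b h
    rw [bef_append, bef_append, bef_append, bef_append]
    exact Or.inr (Or.inr (Or.inr (Or.inr (Or.inr (Or.inr (Or.inl h))))))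
  have embp : ∀ a b, Bef (p.word y y') a b →
      Bef (p.D ++ (H₁.W ++ (p.I ++ (H₂.W ++ p.U)))) a b := by
    intro a b h
    refine List.Sublist.trans h ?_
    unfold Pr.word
    refine List.Sublist.append (List.Sublist.refl _) ?_
    have e1 : y :: (p.I ++ y' :: p.U) = [y] ++ (p.I ++ ([y'] ++ p.U)) := rfl
    rw [e1]
    exact List.Sublist.append (List.singleton_sublist.2 hyW)
      (List.Sublist.append (List.Sublist.refl _)
        (List.Sublist.append (List.singleton_sublist.2 hyW') (List.Sublist.refl _)))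
  have embp' : ∀ a b, a ∈ p.vs → b ∈ p.vs →
      Bef (p.D ++ (H₁.W ++ (p.I ++ (H₂.W ++ p.U)))) a b → Bef (p.word y y') a b := by
    intro a b ha hb h
    have ha1 := d1 a ha
    have hb1 := d1 b hb
    have ha2 := d2 a ha
    have hb2 := d2 b hb
    unfold Pr.word
    simp only [bef_append, bef_cons, List.mem_append, List.mem_cons] at h ⊢
    have n1 : ∀ {x}, Bef H₁.W a x → False := fun h => ha1 h.left
    have n2 : ∀ {x}, Bef H₂.W a x → False := fun h => ha2 h.left
    rcases h with h | ⟨h, h'⟩ | h | ⟨h, h'⟩ | h | ⟨h, h'⟩ | h | ⟨h, h'⟩ | h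
    · exact Or.inl h
    · rcases h' with h' | h' | h' | h'
      · exact absurd h' hb1
      · exact Or.inr (Or.inl ⟨h, Or.inr (Or.inl h')⟩)
      · exact absurd h' hb2
      · exact Or.inr (Or.inl ⟨h, Or.inr (Or.inr (Or.inr h'))⟩)
    · exact (n1 h).elim
    · exact absurd h ha1
    · exact Or.inr (Or.inr (Or.inr (Or.inl h)))
    · rcases h' with h' | h'
      · exact absurd h' hb2
      · exact Or.inr (Or.inr (Or.inr (Or.inr (Or.inl ⟨h, Or.inr h'⟩))))
    · exact (n2 h).elim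
    · exact absurd h ha2
    · exact Or.inr (Or.inr (Or.inr (Or.inr (Or.inr (Or.inr h)))))
  have pX : ∀ e ∈ p.X, e.1 ∈ p.vs ∧ e.2 ∈ p.vs := hp.xw
  constructor
  · exact hnd
  · intro z hz
    rw [List.mem_append] at hz
    rw [hW]
    rcases hz with hz | hz
    · exact Or.inr (Or.inl (h1.kw z hz))
    · exact Or.inr (Or.inr (h2.kw z hz))
  · intro g hg
    simp only [List.mem_append] at hg
    simp only [hW]
    rw [List.mem_append, List.mem_append]
    rcases hg with hg | hg | hg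
    · obtain ⟨⟨a1, a2⟩, a3, a4⟩ := h1.xw g hg
      refine ⟨⟨Or.inr (Or.inl a1), ?_⟩, Or.inr (Or.inl a3), ?_⟩
      · rintro (h | h)
        · exact a2 h
        · exact d12 _ a1 (h2.kw _ h)
      · rintro (h | h)
        · exact a4 h
        · exact d12 _ a3 (h2.kw _ h)
    · obtain ⟨⟨a1, a2⟩, a3, a4⟩ := h2.xw g hg
      refine ⟨⟨Or.inr (Or.inr a1), ?_⟩, Or.inr (Or.inr a3), ?_⟩
      · rintro (h | h)
        · exact d12 _ (h1.kw _ h) a1
        · exact a2 h
      · rintro (h | h)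
        · exact d12 _ (h1.kw _ h) a3
        · exact a4 h
    · obtain ⟨a1, a3⟩ := pX g hg
      refine ⟨⟨Or.inl a1, ?_⟩, Or.inl a3, ?_⟩
      · rintro (h | h)
        · exact d1 _ a1 (h1.kw _ h)
        · exact d2 _ a1 (h2.kw _ h)
      · rintro (h | h)
        · exact d1 _ a3 (h1.kw _ h)
        · exact d2 _ a3 (h2.kw _ h)
  · intro g hg
    simp only [List.mem_cons, List.mem_append] at hg
    simp only [hW]
    rw [List.mem_append, List.mem_append]
    rcases hg with rfl | hg | hg | hg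
    · exact ⟨Or.inr (Or.inl hyW), Or.inr (Or.inr hyW'), Or.inl (Or.inl hy)⟩
    · obtain ⟨a1, a2, a3⟩ := h1.cw g hg
      exact ⟨Or.inr (Or.inl a1), Or.inr (Or.inl a2), a3.imp Or.inl Or.inl⟩
    · obtain ⟨a1, a2, a3⟩ := h2.cw g hg
      exact ⟨Or.inr (Or.inr a1), Or.inr (Or.inr a2), a3.imp Or.inr Or.inr⟩
    · rcases hp.qw g hg with ⟨a1, a2 | a2⟩ | ⟨a1, a2 | a2⟩
      · exact ⟨Or.inl a1, a2 ▸ Or.inr (Or.inl hyW), Or.inr (a2 ▸ Or.inl hy)⟩
      · exact ⟨Or.inl a1, a2 ▸ Or.inr (Or.inr hyW'), Or.inr (a2 ▸ Or.inr hy')⟩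
      · exact ⟨a2 ▸ Or.inr (Or.inl hyW), Or.inl a1, Or.inl (a2 ▸ Or.inl hy)⟩
      · exact ⟨a2 ▸ Or.inr (Or.inr hyW'), Or.inl a1, Or.inl (a2 ▸ Or.inr hy')⟩
  · intro g hg
    simp only [List.mem_append] at hg
    rcases hg with hg | hg | hg
    · exact emb1 _ _ (h1.ox g hg)
    · exact emb2 _ _ (h2.ox g hg)
    · exact embp _ _ (hp.ox g hg)
  · intro g hg
    simp only [List.mem_cons, List.mem_append] at hg
    rcases hg with rfl | hg | hg | hg
    · simp only [bef_append, List.mem_append]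
      exact Or.inr (Or.inr (Or.inr (Or.inl ⟨hyW, Or.inr (Or.inl hyW')⟩)))
    · exact emb1 _ _ (h1.oc g hg)
    · exact emb2 _ _ (h2.oc g hg)
    · exact embp _ _ (hp.oq g hg)
  · intro g hg w hwK hb1 hb2 e₁ e₂ hi1 hi2 he1 he2
    have hwK1 : w ∉ H₁.K := fun h => hwK (List.mem_append_left _ h)
    have hwK2 : w ∉ H₂.K := fun h => hwK (List.mem_append_right _ h)
    have hg' := hg
    simp only [List.mem_append] at hg
    -- incidences
    have C1 : ∀ e ∈ H₁.C, ∀ w, Inc w e → w ∈ H₁.W := fun e he w hi =>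
      inc_mem (P := fun x => x ∈ H₁.W) hi (h1.cw e he).1 (h1.cw e he).2.1
    have C2 : ∀ e ∈ H₂.C, ∀ w, Inc w e → w ∈ H₂.W := fun e he w hi =>
      inc_mem (P := fun x => x ∈ H₂.W) hi (h2.cw e he).1 (h2.cw e he).2.1
    have X1 : ∀ e ∈ H₁.X, ∀ w, Inc w e → w ∈ H₁.W := fun e he w hi =>
      inc_mem (P := fun x => x ∈ H₁.W) hi (h1.xw e he).1.1 (h1.xw e he).2.1
    have X2 : ∀ e ∈ H₂.X, ∀ w, Inc w e → w ∈ H₂.W := fun e he w hi =>
      inc_mem (P := fun x => x ∈ H₂.W) hi (h2.xw e he).1.1 (h2.xw e he).2.1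
    have XP : ∀ e ∈ p.X, ∀ w, Inc w e → w ∈ p.vs := fun e he w hi =>
      inc_mem (P := fun x => x ∈ p.vs) hi (hp.xw e he).1 (hp.xw e he).2
    have QP : ∀ e ∈ p.Q, ∀ w, Inc w e → w = y ∨ w = y' ∨ w ∈ p.vs := by
      intro e he w hi
      rcases hi with rfl | rfl
      · rcases hp.qw e he with ⟨a1, -⟩ | ⟨-, a2 | a2⟩
        · exact Or.inr (Or.inr a1)
        · exact Or.inl a2
        · exact Or.inr (Or.inl a2)
      · rcases hp.qw e he with ⟨-, a2 | a2⟩ | ⟨a1, -⟩
        · exact Or.inl a2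
        · exact Or.inr (Or.inl a2)
        · exact Or.inr (Or.inr a1)
    have ccl : ∀ e, e ∈ (y, y') :: (H₁.C ++ (H₂.C ++ p.Q)) ↔
        e = (y, y') ∨ e ∈ H₁.C ∨ e ∈ H₂.C ∨ e ∈ p.Q := by
      intro e; simp
    rcases hg with hg | hg | hg
    · -- `g` in the lower hull
      have e1 : p.D ++ (H₁.W ++ (p.I ++ (H₂.W ++ p.U))) =
          p.D ++ H₁.W ++ (p.I ++ (H₂.W ++ p.U)) := by simp
      refine cr_part h1 (A := p.D) (C := p.I ++ (H₂.W ++ p.U)) (P := []) (Q := H₂.X ++ p.X)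
        (CC := (y, y') :: (H₁.C ++ (H₂.C ++ p.Q))) (K := H₁.K ++ H₂.K)
        (e1 ▸ hnd) (by simp) ?_ ?_ ?_ g hg w hwK (e1 ▸ hb1) (e1 ▸ hb2) e₁ e₂ hi1 hi2 he1 he2
      · intro e he
        rw [List.mem_append] at he
        rcases he with he | he
        · exact ⟨fun hc => d12 _ hc (h2.xw e he).1.1, fun hc => d12 _ hc (h2.xw e he).2.1⟩
        · exact ⟨d1 _ (pX e he).1, d1 _ (pX e he).2⟩
      · intro z hz
        rw [List.mem_append]
        constructor
        · rintro (h | h)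
          · exact h
          · exact absurd (h2.kw z h) (d12 z hz)
        · exact Or.inl
      · intro e he
        rw [ccl] at he
        rcases he with rfl | he | he | he
        · right
          rintro w (rfl | rfl) hw
          · exact hy
          · exact absurd hyW' (d12 _ hw)
        · exact Or.inl he
        · right
          intro w hi hw
          exact absurd (C2 e he w hi) (d12 w hw)
        · right
          intro w hi hw
          rcases QP e he w hi with rfl | rfl | h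
          · exact hy
          · exact absurd hyW' (d12 _ hw)
          · exact absurd hw (d1 w h)
    · -- `g` in the upper hull
      have e1 : p.D ++ (H₁.W ++ (p.I ++ (H₂.W ++ p.U))) =
          (p.D ++ (H₁.W ++ p.I)) ++ H₂.W ++ p.U := by simp
      refine cr_part h2 (A := p.D ++ (H₁.W ++ p.I)) (C := p.U) (P := H₁.X) (Q := p.X)
        (CC := (y, y') :: (H₁.C ++ (H₂.C ++ p.Q))) (K := H₁.K ++ H₂.K)
        (e1 ▸ hnd) ?_ ?_ ?_ ?_ g hg w hwK (e1 ▸ hb1) (e1 ▸ hb2) e₁ e₂ hi1 hi2 he1 he2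
      · intro e he
        exact ⟨d12 _ (h1.xw e he).1.1, d12 _ (h1.xw e he).2.1⟩
      · intro e he
        exact ⟨d2 _ (pX e he).1, d2 _ (pX e he).2⟩
      · intro z hz
        rw [List.mem_append]
        constructor
        · rintro (h | h)
          · exact absurd hz (d12 z (h1.kw z h))
          · exact h
        · exact Or.inr
      · intro e he
        rw [ccl] at he
        rcases he with rfl | he | he | he
        · right
          rintro w (rfl | rfl) hw
          · exact absurd hw (d12 _ hyW)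
          · exact hy'
        · right
          intro w hi hw
          exact absurd hw (d12 w (C1 e he w hi))
        · exact Or.inl he
        · right
          intro w hi hw
          rcases QP e he w hi with rfl | rfl | h
          · exact absurd hw (d12 _ hyW)
          · exact hy'
          · exact absurd hw (d2 w h)
    · -- `g` in the new box
      obtain ⟨g1, g2⟩ := pX g hg
      have gX1 : g ∉ H₁.X := fun hc => d1 _ g1 (h1.xw g hc).1.1
      have gX2 : g ∉ H₂.X := fun hc => d2 _ g1 (h2.xw g hc).1.1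
      have he2' : Bef p.X g e₂ := by
        rw [bef_append, bef_append] at he2
        rcases he2 with h | ⟨h, -⟩ | h | ⟨h, -⟩ | h
        · exact (gX1 h.left).elim
        · exact (gX1 h).elim
        · exact (gX2 h.left).elim
        · exact (gX2 h).elim
        · exact h
      have hwp : w ∈ p.vs := XP e₂ he2'.right w hi2
      refine hp.cr g hg w (embp' _ _ g1 hwp hb1) (embp' _ _ hwp g2 hb2) e₁ e₂ hi1 hi2 ?_ he2'
      rcases he1 with he1 | he1
      · rw [ccl] at he1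
        rcases he1 with rfl | he1 | he1 | he1
        · rcases hi1 with h | h
          · exact absurd (h ▸ hyW) (d1 w hwp)
          · exact absurd (h ▸ hyW') (d2 w hwp)
        · exact absurd (C1 e₁ he1 w hi1) (d1 w hwp)
        · exact absurd (C2 e₁ he1 w hi1) (d2 w hwp)
        · exact Or.inl he1
      · right
        rw [bef_append, bef_append] at he1
        rcases he1 with h | ⟨h, -⟩ | h | ⟨h, -⟩ | h
        · exact (gX1 h.right).elim
        · exact absurd (X1 e₁ h w hi1) (d1 w hwp)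
        · exact (gX2 h.right).elim
        · exact absurd (X2 e₁ h w hi1) (d2 w hwp)
        · exact h

/-- **Stack.** -/
theorem stack_ok {N : V × V → V → Prop} {H₁ H₂ : Hl V}
    (h1 : HOK N H₁) (h2 : HOK N H₂) (d12 : ∀ x ∈ H₁.W, x ∉ H₂.W) :
    HOK N ⟨H₁.W ++ H₂.W, H₁.X ++ H₂.X, H₁.C ++ H₂.C, H₁.K ++ H₂.K⟩ := by
  have hnd : (H₁.W ++ H₂.W).Nodup := nodup_app h1.nd h2.nd d12
  constructor
  · exact hnd
  · intro z hz
    rw [List.mem_append] at hz ⊢
    exact hz.imp (h1.kw z) (h2.kw z)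
  · intro g hg
    rw [List.mem_append] at hg
    simp only [List.mem_append]
    rcases hg with hg | hg
    · obtain ⟨⟨a1, a2⟩, a3, a4⟩ := h1.xw g hg
      refine ⟨⟨Or.inl a1, ?_⟩, Or.inl a3, ?_⟩
      · rintro (h | h)
        · exact a2 h
        · exact d12 _ a1 (h2.kw _ h)
      · rintro (h | h)
        · exact a4 h
        · exact d12 _ a3 (h2.kw _ h)
    · obtain ⟨⟨a1, a2⟩, a3, a4⟩ := h2.xw g hg
      refine ⟨⟨Or.inr a1, ?_⟩, Or.inr a3, ?_⟩
      · rintro (h | h)
        · exact d12 _ (h1.kw _ h) a1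
        · exact a2 h
      · rintro (h | h)
        · exact d12 _ (h1.kw _ h) a3
        · exact a4 h
  · intro g hg
    rw [List.mem_append] at hg
    simp only [List.mem_append]
    rcases hg with hg | hg
    · obtain ⟨a1, a2, a3⟩ := h1.cw g hg
      exact ⟨Or.inl a1, Or.inl a2, a3.imp Or.inl Or.inl⟩
    · obtain ⟨a1, a2, a3⟩ := h2.cw g hg
      exact ⟨Or.inr a1, Or.inr a2, a3.imp Or.inr Or.inr⟩
  · intro g hg
    rw [List.mem_append] at hg
    rw [bef_append]
    rcases hg with hg | hg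
    · exact Or.inl (h1.ox g hg)
    · exact Or.inr (Or.inr (h2.ox g hg))
  · intro g hg
    rw [List.mem_append] at hg
    rw [bef_append]
    rcases hg with hg | hg
    · exact Or.inl (h1.oc g hg)
    · exact Or.inr (Or.inr (h2.oc g hg))
  · intro g hg w hwK hb1 hb2 e₁ e₂ hi1 hi2 he1 he2
    have C1 : ∀ e ∈ H₁.C, ∀ w, Inc w e → w ∈ H₁.W := fun e he w hi =>
      inc_mem (P := fun x => x ∈ H₁.W) hi (h1.cw e he).1 (h1.cw e he).2.1
    have C2 : ∀ e ∈ H₂.C, ∀ w, Inc w e → w ∈ H₂.W := fun e he w hi =>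
      inc_mem (P := fun x => x ∈ H₂.W) hi (h2.cw e he).1 (h2.cw e he).2.1
    rw [List.mem_append] at hg
    rcases hg with hg | hg
    · have e1 : H₁.W ++ H₂.W = [] ++ H₁.W ++ H₂.W := by simp
      refine cr_part h1 (A := []) (C := H₂.W) (P := []) (Q := H₂.X)
        (CC := H₁.C ++ H₂.C) (K := H₁.K ++ H₂.K)
        (e1 ▸ hnd) (by simp) ?_ ?_ ?_ g hg w hwK (e1 ▸ hb1) (e1 ▸ hb2) e₁ e₂ hi1 hi2 he1 he2
      · intro e he
        exact ⟨fun hc => d12 _ hc (h2.xw e he).1.1, fun hc => d12 _ hc (h2.xw e he).2.1⟩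
      · intro z hz
        rw [List.mem_append]
        constructor
        · rintro (h | h)
          · exact h
          · exact absurd (h2.kw z h) (d12 z hz)
        · exact Or.inl
      · intro e he
        rw [List.mem_append] at he
        rcases he with he | he
        · exact Or.inl he
        · right
          intro w hi hw
          exact absurd (C2 e he w hi) (d12 w hw)
    · have e1 : H₁.W ++ H₂.W = H₁.W ++ H₂.W ++ [] := by simp
      have e2 : H₁.X ++ H₂.X = H₁.X ++ (H₂.X ++ []) := by simp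
      refine cr_part h2 (A := H₁.W) (C := []) (P := H₁.X) (Q := [])
        (CC := H₁.C ++ H₂.C) (K := H₁.K ++ H₂.K)
        (e1 ▸ hnd) ?_ (by simp) ?_ ?_ g hg w hwK (e1 ▸ hb1) (e1 ▸ hb2) e₁ e₂ hi1 hi2
        (e2 ▸ he1) (e2 ▸ he2)
      · intro e he
        exact ⟨d12 _ (h1.xw e he).1.1, d12 _ (h1.xw e he).2.1⟩
      · intro z hz
        rw [List.mem_append]
        constructor
        · rintro (h | h)
          · exact absurd hz (d12 z (h1.kw z h))
          · exact h
        · exact Or.inr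
      · intro e he
        rw [List.mem_append] at he
        rcases he with he | he
        · right
          intro w hi hw
          exact absurd hw (d12 w (C1 e he w hi))
        · exact Or.inl he

end Pool.Agent.Helper51.TT
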