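import Pool.Agent.Helper51.TT.Main

/-!
# MP_de303a_co Q2: the main induction
-/

namespace Pool.Agent.Helper51.TT

open Pool.Agent.Helper4.UpLoc

variable {V : Type}

theorem nd_sub {l u w : V} {L₁ L₂ L₃ : List V}
    (h : (l :: u :: w :: (L₁ ++ (L₂ ++ L₃))).Nodup) :
    (l ≠ u ∧ l ≠ w ∧ u ≠ w) ∧ (l ∉ L₁ ∧ l ∉ L₂ ∧ l ∉ L₃) ∧ (u ∉ L₁ ∧ u ∉ L₂ ∧ u ∉ L₃) ∧
      (w ∉ L₁ ∧ w ∉ L₂ ∧ w ∉ L₃) ∧ (L₁.Nodup ∧ L₂.Nodup ∧ L₃.Nodup) ∧
      (∀ x ∈ L₁, x ∉ L₂) ∧ (∀ x ∈ L₁, x ∉ L₃) ∧ (∀ x ∈ L₂, x ∉ L₃) := by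
  simp only [List.nodup_cons, List.mem_cons, List.mem_append, not_or, List.nodup_append] at h
  obtain ⟨⟨a1, a2, a3, a4, a5⟩, ⟨b1, b2, b3, b4⟩, ⟨c1, c2, c3⟩, d1, ⟨d2, d3, d4⟩, d5⟩ := h
  exact ⟨⟨a1, a2, b1⟩, ⟨a3, a4, a5⟩, ⟨b2, b3, b4⟩, ⟨c1, c2, c3⟩, ⟨d1, d2, d3⟩,
    fun x hx hx' => d5 x hx x (Or.inl hx') rfl, fun x hx hx' => d5 x hx x (Or.inr hx') rfl,
    fun x hx hx' => d4 x hx x hx' rfl⟩

theorem nd3 {x y : V} {L : List V} (h1 : x ≠ y) (h2 : x ∉ L) (h3 : y ∉ L) (h4 : L.Nodup) :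
    (x :: y :: L).Nodup := by
  simp [List.nodup_cons, h1, h2, h3, h4]

theorem edges_ne {t : T2 V} {l u a : V} (h1 : l ≠ a) (h2 : u ≠ a) (h3 : a ∉ t.labels) :
    ∀ g ∈ t.edges l u, g.1 ≠ a ∧ g.2 ≠ a := by
  intro g hg
  obtain ⟨e1, e2, -⟩ := T2.edges_mem t l u g hg
  constructor
  · rintro rfl
    simp only [List.mem_cons] at e1
    rcases e1 with h | h | h
    · exact h1 h.symm
    · exact h2 h.symm
    · exact h3 h
  · rintro rfl
    simp only [List.mem_cons] at e2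
    rcases e2 with h | h | h
    · exact h1 h.symm
    · exact h2 h.symm
    · exact h3 h

theorem pr_ne {p : Pr V} {ed : List (V × V)} {a : V} (hp : (p.X ++ p.Q).Perm ed)
    (h : ∀ g ∈ ed, g.1 ≠ a ∧ g.2 ≠ a) : ∀ g, g ∈ p.X ∨ g ∈ p.Q → g.1 ≠ a ∧ g.2 ≠ a := by
  intro g hg
  exact h g (hp.mem_iff.1 (List.mem_append.2 hg))

/-- The three statements of the induction. -/
structure All (G : Set (V × V)) (t : T2 V) (l u : V) : Prop where
  lo : Link (Near G) t.labels (t.edges l u) l u (fun z => (l, z))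
  up : Link (Near G) t.labels (t.edges l u) u l (fun z => (z, u))
  pr : Proc (Near G) t.labels (t.edges l u) l u

theorem All.pok {G : Set (V × V)} {t : T2 V} {l u : V} (h : All G t l u)
    (hnd : (l :: u :: t.labels).Nodup) (hG : ∀ e ∈ t.edges l u, e ∈ G) (hlu : (l, u) ∈ G) :
    ∃ p : Pr V, POK (Near G) p l u ∧ p.vs.Perm t.labels ∧ (p.X ++ p.Q).Perm (t.edges l u) :=
  pok_of_proc hnd hG hlu h.pr

theorem P1 {α : Type} {x : α} {A B B' C : List α} (h : B.Perm B') :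
    (x :: (A ++ (B ++ C))).Perm (x :: (A ++ (B' ++ C))) :=
  ((h.append_right C).append_left A).cons x

theorem P2 {α : Type} {x : α} {A A' B C : List α} (h : A.Perm A') :
    (x :: (B ++ (A ++ C))).Perm (x :: (A' ++ (B ++ C))) := by
  classical
  rw [List.perm_iff_count] at h ⊢
  intro y
  have := h y
  simp only [List.count_append, List.count_cons]
  omega

theorem P3 {α : Type} {x : α} {A A' C : List α} (h : A.Perm A') :
    (x :: (A ++ C)).Perm (x :: (A' ++ C)) :=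
  (h.append_right C).cons x

theorem main_ind (G : Set (V × V)) (t : T2 V) : ∀ (l u : V), (l :: u :: t.labels).Nodup →
    (∀ e ∈ t.edges l u, e ∈ G) → (l, u) ∈ G → All G t l u := by
  classical
  induction t with
  | leaf =>
    intro l u _ _ _
    exact ⟨Link.nil _ _ _ _, Link.nil _ _ _ _, Proc.nil _ _ _⟩
  | M w t₁ t₂ t₃ h1 h2 h3 =>
    intro l u hnd hG hlu
    simp only [T2.labels] at hnd
    have hnd' := hnd.of_cons.of_cons
    obtain ⟨⟨n1, n2, n3⟩, ⟨l1, l2, l3⟩, ⟨u1, u2, u3⟩, ⟨w1, w2, w3⟩, ⟨m1, m2, m3⟩, d12, d13, d23⟩ :=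
      nd_sub hnd
    simp only [T2.edges, List.mem_cons, List.mem_append] at hG
    have g1 : ∀ e ∈ t₁.edges l w, e ∈ G := fun e he => hG e (by simp [he])
    have g2 : ∀ e ∈ t₂.edges w u, e ∈ G := fun e he => hG e (by simp [he])
    have g3 : ∀ e ∈ t₃.edges l u, e ∈ G := fun e he => hG e (by simp [he])
    have r1 : (l, w) ∈ G := hG _ (by simp)
    have r2 : (w, u) ∈ G := hG _ (by simp)
    have A1 := h1 l w (nd3 n2 l1 w1 m1) g1 r1
    have A2 := h2 w u (nd3 n3.symm w2 u2 m2) g2 r2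
    have A3 := h3 l u (nd3 n1 l3 u3 m3) g3 hlu
    obtain ⟨p₁, hp₁, hv₁, hx₁⟩ := A1.pok (nd3 n2 l1 w1 m1) g1 r1
    obtain ⟨p₂, hp₂, hv₂, hx₂⟩ := A2.pok (nd3 n3.symm w2 u2 m2) g2 r2
    have z1 : ∀ x ∈ p₁.vs, x ∉ [w] := by
      intro x hx hx'
      rw [List.mem_singleton] at hx'
      exact w1 (hx' ▸ hv₁.mem_iff.1 hx)
    have z2 : ∀ x ∈ p₂.vs, x ∉ [w] := by
      intro x hx hx'
      rw [List.mem_singleton] at hx'
      exact w2 (hx' ▸ hv₂.mem_iff.1 hx)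
    have P1' : (w :: (t₁.labels ++ (p₂.vs ++ t₃.labels))).Perm
        (w :: (t₁.labels ++ (t₂.labels ++ t₃.labels))) := P1 hv₂
    have P2' : (w :: (t₂.labels ++ (p₁.vs ++ t₃.labels))).Perm
        (w :: (t₁.labels ++ (t₂.labels ++ t₃.labels))) := P2 hv₁
    have P3' : (w :: (p₁.vs ++ (t₂.labels ++ t₃.labels))).Perm
        (w :: (t₁.labels ++ (t₂.labels ++ t₃.labels))) := P3 hv₁
    refine ⟨?_, ?_, ?_⟩
    · exact (Link.same (f := fun z => (l, z)) (clusterBot (S := []) (E := []) (K := [])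
        (Phase.id _ [w]) (by simp) hp₂ z2) A1.lo A3.lo (P1'.nodup_iff.2 hnd') ⟨n2.symm, n1.symm⟩
        (pr_ne hx₂ (edges_ne n2.symm n1.symm l2))).congr P1' ((P1 hx₂).cons _)
    · exact (Link.same (f := fun z => (z, u)) (clusterTop (S := []) (E := []) (K := [])
        (Phase.id _ [w]) (by simp) hp₁ z1) A2.up A3.up (P2'.nodup_iff.2 hnd') ⟨n1, n3.symm⟩
        (pr_ne hx₁ (edges_ne n1 n3.symm u1))).congr P2'
        (((P2 hx₁).cons _).trans (List.Perm.swap _ _ _))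
    · exact Proc.M A1.lo A2.up A3.pr hnd' (edges_ne n1 n3.symm u1) (edges_ne n2.symm n1.symm l2)
  | U w t₁ t₂ t₃ h1 h2 h3 =>
    intro l u hnd hG hlu
    simp only [T2.labels] at hnd
    have hnd' := hnd.of_cons.of_cons
    obtain ⟨⟨n1, n2, n3⟩, ⟨l1, l2, l3⟩, ⟨u1, u2, u3⟩, ⟨w1, w2, w3⟩, ⟨m1, m2, m3⟩, d12, d13, d23⟩ :=
      nd_sub hnd
    simp only [T2.edges, List.mem_cons, List.mem_append] at hG
    have g1 : ∀ e ∈ t₁.edges l w, e ∈ G := fun e he => hG e (by simp [he])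
    have g2 : ∀ e ∈ t₂.edges u w, e ∈ G := fun e he => hG e (by simp [he])
    have g3 : ∀ e ∈ t₃.edges l u, e ∈ G := fun e he => hG e (by simp [he])
    have r1 : (l, w) ∈ G := hG _ (by simp)
    have r2 : (u, w) ∈ G := hG _ (by simp)
    have A1 := h1 l w (nd3 n2 l1 w1 m1) g1 r1
    have A2 := h2 u w (nd3 n3 u2 w2 m2) g2 r2
    have A3 := h3 l u (nd3 n1 l3 u3 m3) g3 hlu
    obtain ⟨p₁, hp₁, hv₁, hx₁⟩ := A1.pok (nd3 n2 l1 w1 m1) g1 r1
    obtain ⟨p₂, hp₂, hv₂, hx₂⟩ := A2.pok (nd3 n3 u2 w2 m2) g2 r2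
    have z1 : ∀ x ∈ p₁.vs, x ∉ [w] := by
      intro x hx hx'
      rw [List.mem_singleton] at hx'
      exact w1 (hx' ▸ hv₁.mem_iff.1 hx)
    have z2 : ∀ x ∈ p₂.vs, x ∉ [w] := by
      intro x hx hx'
      rw [List.mem_singleton] at hx'
      exact w2 (hx' ▸ hv₂.mem_iff.1 hx)
    have P1' : (w :: (t₁.labels ++ (p₂.vs ++ t₃.labels))).Perm
        (w :: (t₁.labels ++ (t₂.labels ++ t₃.labels))) := P1 hv₂
    have P2' : (w :: (t₂.labels ++ (p₁.vs ++ t₃.labels))).Perm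
        (w :: (t₁.labels ++ (t₂.labels ++ t₃.labels))) := P2 hv₁
    have P3' : (w :: (p₁.vs ++ (t₂.labels ++ t₃.labels))).Perm
        (w :: (t₁.labels ++ (t₂.labels ++ t₃.labels))) := P3 hv₁
    refine ⟨?_, ?_, ?_⟩
    · exact (Link.same (f := fun z => (l, z)) (clusterTop (S := []) (E := []) (K := [])
        (Phase.id _ [w]) (by simp) hp₂ z2) A1.lo A3.lo (P1'.nodup_iff.2 hnd') ⟨n1.symm, n2.symm⟩
        (pr_ne hx₂ (edges_ne n1.symm n2.symm l2))).congr P1' ((P1 hx₂).cons _)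
    · exact (Link.opp (f := fun z => (z, u)) (f' := fun z => (u, z)) true (by simp)
        (fun S E K hK hw hd => by
          simpa using clusterTop hK hw hp₁ hd) A2.lo A3.up (P3'.nodup_iff.2 hnd') ⟨n1, n3.symm⟩
        (pr_ne hx₁ (edges_ne n1 n3.symm u1))).congr P3'
        (((P3 hx₁).cons _).trans (List.Perm.swap _ _ _))
    · exact Proc.UD true (Or.inl ⟨rfl, rfl⟩) (by simp) (by simp) A1.lo A2.lo A3.pr hnd'
        (edges_ne n1 n3.symm u1) (edges_ne n1.symm n2.symm l2)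
  | D w t₁ t₂ t₃ h1 h2 h3 =>
    intro l u hnd hG hlu
    simp only [T2.labels] at hnd
    have hnd' := hnd.of_cons.of_cons
    obtain ⟨⟨n1, n2, n3⟩, ⟨l1, l2, l3⟩, ⟨u1, u2, u3⟩, ⟨w1, w2, w3⟩, ⟨m1, m2, m3⟩, d12, d13, d23⟩ :=
      nd_sub hnd
    simp only [T2.edges, List.mem_cons, List.mem_append] at hG
    have g1 : ∀ e ∈ t₁.edges w u, e ∈ G := fun e he => hG e (by simp [he])
    have g2 : ∀ e ∈ t₂.edges w l, e ∈ G := fun e he => hG e (by simp [he])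
    have g3 : ∀ e ∈ t₃.edges l u, e ∈ G := fun e he => hG e (by simp [he])
    have r1 : (w, u) ∈ G := hG _ (by simp)
    have r2 : (w, l) ∈ G := hG _ (by simp)
    have A1 := h1 w u (nd3 n3.symm w1 u1 m1) g1 r1
    have A2 := h2 w l (nd3 n2.symm w2 l2 m2) g2 r2
    have A3 := h3 l u (nd3 n1 l3 u3 m3) g3 hlu
    obtain ⟨p₁, hp₁, hv₁, hx₁⟩ := A1.pok (nd3 n3.symm w1 u1 m1) g1 r1
    obtain ⟨p₂, hp₂, hv₂, hx₂⟩ := A2.pok (nd3 n2.symm w2 l2 m2) g2 r2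
    have z1 : ∀ x ∈ p₁.vs, x ∉ [w] := by
      intro x hx hx'
      rw [List.mem_singleton] at hx'
      exact w1 (hx' ▸ hv₁.mem_iff.1 hx)
    have z2 : ∀ x ∈ p₂.vs, x ∉ [w] := by
      intro x hx hx'
      rw [List.mem_singleton] at hx'
      exact w2 (hx' ▸ hv₂.mem_iff.1 hx)
    have P1' : (w :: (t₁.labels ++ (p₂.vs ++ t₃.labels))).Perm
        (w :: (t₁.labels ++ (t₂.labels ++ t₃.labels))) := P1 hv₂
    have P2' : (w :: (t₂.labels ++ (p₁.vs ++ t₃.labels))).Perm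
        (w :: (t₁.labels ++ (t₂.labels ++ t₃.labels))) := P2 hv₁
    have P3' : (w :: (p₁.vs ++ (t₂.labels ++ t₃.labels))).Perm
        (w :: (t₁.labels ++ (t₂.labels ++ t₃.labels))) := P3 hv₁
    refine ⟨?_, ?_, ?_⟩
    · exact (Link.opp (f := fun z => (l, z)) (f' := fun z => (z, l)) false (by simp)
        (fun S E K hK hw hd => by
          simpa using clusterBot hK hw hp₁ hd) A2.up A3.lo (P3'.nodup_iff.2 hnd')
        ⟨n2.symm, n1.symm⟩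
        (pr_ne hx₁ (edges_ne n2.symm n1.symm l1))).congr P3'
        (((P3 hx₁).cons _).trans (List.Perm.swap _ _ _))
    · exact (Link.same (f := fun z => (z, u)) (clusterBot (S := []) (E := []) (K := [])
        (Phase.id _ [w]) (by simp) hp₂ z2) A1.up A3.up (P1'.nodup_iff.2 hnd') ⟨n3.symm, n1⟩
        (pr_ne hx₂ (edges_ne n3.symm n1 u2))).congr P1' ((P1 hx₂).cons _)
    · exact Proc.UD false (Or.inr ⟨rfl, rfl⟩) (by simp) (by simp) A1.up A2.up A3.pr hnd'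
        (edges_ne n2.symm n1.symm l1) (edges_ne n3.symm n1 u2)

end Pool.Agent.Helper51.TT
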