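import Pool.Agent.Helper51.TT.Tree

/-!
# MP_de303a_co Q2: links and processes
-/

namespace Pool.Agent.Helper51.TT

open Pool.Agent.Helper4.UpLoc

variable {V : Type}

/-- The part of a process that hangs at the edge between the port `a` and the process vertex `v`:
`f z` is the edge between `a` and `z` for the vertices on the same side of `a` as `v`. -/
def Link (N : V × V → V → Prop) (lab : List V) (ed : List (V × V)) (a v : V) (f : V → V × V) :
    Prop :=
  ∃ (S₁ S₂ : List V) (E₁ E₂ : List (V × V)) (K T B : List V),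
    Phase N [v] S₁ E₁ K [] [] ∧ Phase N (v :: K) S₂ E₂ (T ++ B) T B ∧ (S₁ ++ S₂).Perm lab ∧
    (E₁ ++ (E₂ ++ (K.map f ++ (T.map (fun z => (a, z)) ++ B.map (fun z => (z, a)))))).Perm ed ∧
    (∀ z ∈ K, z ∈ S₁) ∧ (∀ z ∈ T, z ∈ S₂) ∧ (∀ z ∈ B, z ∈ S₂) ∧
    ∀ g, g ∈ E₁ ∨ g ∈ E₂ → g.1 ≠ a ∧ g.2 ≠ a

theorem Link.congr {N : V × V → V → Prop} {lab lab' : List V} {ed ed' : List (V × V)} {a v : V}
    {f : V → V × V} (h : Link N lab ed a v f) (h1 : lab.Perm lab') (h2 : ed.Perm ed') :
    Link N lab' ed' a v f := by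
  obtain ⟨S₁, S₂, E₁, E₂, K, T, B, a1, a2, a3, a4, a5⟩ := h
  exact ⟨S₁, S₂, E₁, E₂, K, T, B, a1, a2, a3.trans h1, a4.trans h2, a5⟩

theorem Link.nil (N : V × V → V → Prop) (a v : V) (f : V → V × V) : Link N [] [] a v f :=
  ⟨[], [], [], [], [], [], [], Phase.id N _, Phase.id N _, by simp, by simp, by simp, by simp,
    by simp, by simp⟩

/-- A new vertex on the same side. -/
theorem Link.same {N : V × V → V → Prop} {lab₁ lab₃ : List V} {ed₁ ed₃ : List (V × V)}
    {a v w : V} {f : V → V × V} {p : Pr V} {e : V × V} {T₀ B₀ : List V}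
    (hcl : Phase N [v] (w :: ([] ++ p.vs)) (e :: ([] ++ (p.X ++ p.Q))) [w] T₀ B₀)
    (h1 : Link N lab₁ ed₁ a w f) (h3 : Link N lab₃ ed₃ a v f)
    (hnd : (w :: (lab₁ ++ (p.vs ++ lab₃))).Nodup)
    (he : e.1 ≠ a ∧ e.2 ≠ a) (hp : ∀ g, g ∈ p.X ∨ g ∈ p.Q → g.1 ≠ a ∧ g.2 ≠ a) :
    Link N (w :: (lab₁ ++ (p.vs ++ lab₃))) (f w :: e :: (ed₁ ++ ((p.X ++ p.Q) ++ ed₃))) a v f := by
  classical
  obtain ⟨S₁, S₂, E₁, E₂, K, T, B, a1, a2, a3, a4, a5, a6, a7, a8⟩ := h1
  obtain ⟨S₁', S₂', E₁', E₂', K', T', B', b1, b2, b3, b4, b5, b6, b7, b8⟩ := h3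
  have m1 : ∀ s, s ∈ lab₁ ↔ s ∈ S₁ ∨ s ∈ S₂ := fun s => by rw [← a3.mem_iff, List.mem_append]
  have m3 : ∀ s, s ∈ lab₃ ↔ s ∈ S₁' ∨ s ∈ S₂' := fun s => by rw [← b3.mem_iff, List.mem_append]
  simp only [List.nodup_cons, List.nodup_append, List.mem_append] at hnd
  obtain ⟨n0, n1, ⟨n2, n3, n4⟩, n5⟩ := hnd
  have p1 := (((hcl.weaken (req' := [v]) (T' := []) (B' := []) (by simp) (by simp) (by simp)).comp
    a1 (by simp) (by
      intro s hs hs'
      simp only [List.nil_append, List.mem_cons] at hs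
      rcases hs with rfl | hs
      · exact n0 (Or.inl ((m1 s).2 (Or.inl hs')))
      · exact n5 s ((m1 s).2 (Or.inl hs')) s (Or.inl hs) rfl)).comp b1 (by simp) (by
      intro s hs hs'
      simp only [List.nil_append, List.mem_cons, List.mem_append] at hs
      have hs3 := (m3 s).2 (Or.inl hs')
      rcases hs with (rfl | hs) | hs
      · exact n0 (Or.inr (Or.inr hs3))
      · exact n4 s hs s hs3 rfl
      · exact n5 s ((m1 s).2 (Or.inl hs)) s (Or.inr hs3) rfl))
  have p2 := ((a2.weaken (req' := v :: (([w] ++ K) ++ K')) (T' := T) (B' := B) (by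
      intro r hr
      simp only [List.mem_cons] at hr
      simp only [List.mem_cons, List.mem_append]
      tauto) (by simp) (by simp)).comp b2 (by
      intro r hr
      left
      simp only [List.mem_cons] at hr
      simp only [List.mem_cons, List.mem_append]
      tauto) (by
      intro s hs hs'
      exact n5 s ((m1 s).2 (Or.inr hs)) s (Or.inr ((m3 s).2 (Or.inr hs'))) rfl))
  refine ⟨_, S₂ ++ S₂', _, E₂ ++ E₂', _, T ++ T', B ++ B', p1, ?_, ?_, ?_, ?_, ?_, ?_, ?_⟩
  · -- reorder the process vertices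
    intro H hH hr hS
    obtain ⟨H', L, R, c1, c2, c3, c4, c5, c6, c7⟩ := p2 H hH hr hS
    refine ⟨H', L, R, c1, c2, c3, c4, ?_, c6, c7⟩
    intro z
    rw [c5]
    simp only [List.mem_append]
    tauto
  · rw [List.perm_iff_count] at a3 b3 ⊢
    intro x
    have := a3 x
    have := b3 x
    simp only [List.count_append, List.count_cons, List.nil_append] at *
    omega
  · rw [List.perm_iff_count] at a4 b4 ⊢
    intro x
    have := a4 x
    have := b4 x
    simp only [List.count_append, List.count_cons, List.nil_append, List.map_append,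
      List.map_cons, List.map_nil, List.count_nil] at *
    omega
  · intro z hz
    simp only [List.mem_append, List.mem_cons, List.not_mem_nil, or_false] at hz ⊢
    rcases hz with (rfl | hz) | hz
    · exact Or.inl (Or.inl (Or.inl rfl))
    · exact Or.inl (Or.inr (a5 z hz))
    · exact Or.inr (b5 z hz)
  · intro z hz
    rw [List.mem_append] at hz ⊢
    exact hz.imp (a6 z) (b6 z)
  · intro z hz
    rw [List.mem_append] at hz ⊢
    exact hz.imp (a7 z) (b7 z)
  · intro g hg
    simp only [List.mem_append, List.mem_cons, List.nil_append] at hg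
    rcases hg with (((rfl | hg | hg) | hg) | hg) | hg | hg
    · exact he
    · exact hp g (Or.inl hg)
    · exact hp g (Or.inr hg)
    · exact a8 g (Or.inl hg)
    · exact b8 g (Or.inl hg)
    · exact a8 g (Or.inr hg)
    · exact b8 g (Or.inr hg)

/-- A new vertex on the opposite side. `top = true`: above, `top = false`: below. -/
theorem Link.opp {N : V × V → V → Prop} {lab₂ lab₃ : List V} {ed₂ ed₃ : List (V × V)}
    {a v w : V} {f f' : V → V × V} {p : Pr V} {e : V × V} (top : Bool)
    (hf' : f' = if top then (fun z => (a, z)) else (fun z => (z, a)))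
    (hcl : ∀ (S : List V) (E : List (V × V)) (K : List V), Phase N [w] S E K [] [] → w ∉ S →
      (∀ x ∈ p.vs, x ∉ w :: S) →
      Phase N [v] (w :: (S ++ p.vs)) (e :: (E ++ (p.X ++ p.Q))) (w :: K)
        (if top then w :: K else []) (if top then [] else w :: K))
    (h2 : Link N lab₂ ed₂ a w f') (h3 : Link N lab₃ ed₃ a v f)
    (hnd : (w :: (p.vs ++ (lab₂ ++ lab₃))).Nodup)
    (he : e.1 ≠ a ∧ e.2 ≠ a) (hp : ∀ g, g ∈ p.X ∨ g ∈ p.Q → g.1 ≠ a ∧ g.2 ≠ a) :
    Link N (w :: (p.vs ++ (lab₂ ++ lab₃))) (f' w :: e :: ((p.X ++ p.Q) ++ (ed₂ ++ ed₃))) a v f := by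
  classical
  obtain ⟨S₁, S₂, E₁, E₂, K, T, B, a1, a2, a3, a4, a5, a6, a7, a8⟩ := h2
  obtain ⟨S₁', S₂', E₁', E₂', K', T', B', b1, b2, b3, b4, b5, b6, b7, b8⟩ := h3
  have m2 : ∀ s, s ∈ lab₂ ↔ s ∈ S₁ ∨ s ∈ S₂ := fun s => by rw [← a3.mem_iff, List.mem_append]
  have m3 : ∀ s, s ∈ lab₃ ↔ s ∈ S₁' ∨ s ∈ S₂' := fun s => by rw [← b3.mem_iff, List.mem_append]
  simp only [List.nodup_cons, List.nodup_append, List.mem_append] at hnd
  obtain ⟨n0, n1, ⟨n2, n3, n4⟩, n5⟩ := hnd
  have n2' : (S₁ ++ S₂).Nodup := a3.nodup_iff.2 n2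
  have n3' : (S₁' ++ S₂').Nodup := b3.nodup_iff.2 n3
  have c1 := hcl S₁ E₁ K a1 (fun hc => n0 (Or.inr (Or.inl ((m2 w).2 (Or.inl hc))))) (by
    intro x hx hx'
    rw [List.mem_cons] at hx'
    rcases hx' with rfl | hx'
    · exact n0 (Or.inl hx)
    · exact n5 x hx x (Or.inl ((m2 x).2 (Or.inl hx'))) rfl)
  have p2 := ((c1.weaken (req' := v :: K') (T' := if top then w :: K else [])
      (B' := if top then [] else w :: K) (by simp) (by simp) (by simp)).comp a2 (by
      intro r hr
      exact Or.inr hr) (by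
      intro s hs hs'
      have hs2 := (m2 s).2 (Or.inr hs')
      simp only [List.mem_cons, List.mem_append] at hs
      rcases hs with rfl | hs | hs
      · exact n0 (Or.inr (Or.inl hs2))
      · rw [List.nodup_append] at n2'
        exact n2'.2.2 s hs s hs' rfl
      · exact n5 s hs s (Or.inl hs2) rfl)).comp b2 (by
      intro r hr
      exact Or.inl hr) (by
      intro s hs hs'
      have hs3 := (m3 s).2 (Or.inr hs')
      simp only [List.mem_cons, List.mem_append] at hs
      rcases hs with (rfl | hs | hs) | hs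
      · exact n0 (Or.inr (Or.inr hs3))
      · exact n4 s ((m2 s).2 (Or.inl hs)) s hs3 rfl
      · exact n5 s hs s (Or.inr hs3) rfl
      · exact n4 s ((m2 s).2 (Or.inr hs)) s hs3 rfl)
  refine ⟨S₁', w :: (S₁ ++ p.vs) ++ S₂ ++ S₂', E₁', e :: (E₁ ++ (p.X ++ p.Q)) ++ E₂ ++ E₂', K',
    ((if top then w :: K else []) ++ T) ++ T',
    ((if top then [] else w :: K) ++ B) ++ B', b1, ?_, ?_, ?_, b5, ?_, ?_, ?_⟩
  · intro H hH hr hS
    obtain ⟨H', L, R, c1, c2, c3, c4, c5, c6, c7⟩ := p2 H hH hr hS
    refine ⟨H', L, R, c1, c2, c3, c4, ?_, c6, c7⟩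
    intro z
    rw [c5]
    cases top
    · simp only [List.mem_append, List.mem_cons, Bool.false_eq_true, if_false,
        List.not_mem_nil]
      tauto
    · simp only [List.mem_append, List.mem_cons, if_true, List.not_mem_nil]
      tauto
  · rw [List.perm_iff_count] at a3 b3 ⊢
    intro x
    have := a3 x
    have := b3 x
    simp only [List.count_append, List.count_cons, List.nil_append] at *
    omega
  · rw [List.perm_iff_count] at a4 b4 ⊢
    intro x
    have h4 := a4 x
    have h5 := b4 x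
    subst hf'
    cases top
    · simp only [List.count_append, List.count_cons, List.nil_append, List.map_append,
        List.map_cons, Bool.false_eq_true, if_false] at *
      omega
    · simp only [List.count_append, List.count_cons, List.nil_append, List.map_append,
        List.map_cons, if_true] at *
      omega
  · intro z hz
    cases top
    · simp only [List.mem_append, List.mem_cons, Bool.false_eq_true, if_false,
        List.not_mem_nil, false_or] at hz ⊢
      rcases hz with hz | hz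
      · exact Or.inl (Or.inr (a6 z hz))
      · exact Or.inr (b6 z hz)
    · simp only [List.mem_append, List.mem_cons, if_true] at hz ⊢
      rcases hz with ((rfl | hz) | hz) | hz
      · exact Or.inl (Or.inl (Or.inl rfl))
      · exact Or.inl (Or.inl (Or.inr (Or.inl (a5 z hz))))
      · exact Or.inl (Or.inr (a6 z hz))
      · exact Or.inr (b6 z hz)
  · intro z hz
    cases top
    · simp only [List.mem_append, List.mem_cons, Bool.false_eq_true, if_false] at hz ⊢
      rcases hz with ((rfl | hz) | hz) | hz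
      · exact Or.inl (Or.inl (Or.inl rfl))
      · exact Or.inl (Or.inl (Or.inr (Or.inl (a5 z hz))))
      · exact Or.inl (Or.inr (a7 z hz))
      · exact Or.inr (b7 z hz)
    · simp only [List.mem_append, List.mem_cons, if_true, List.not_mem_nil, false_or] at hz ⊢
      rcases hz with hz | hz
      · exact Or.inl (Or.inr (a7 z hz))
      · exact Or.inr (b7 z hz)
  · intro g hg
    simp only [List.mem_append, List.mem_cons] at hg
    rcases hg with hg | (((rfl | hg | hg | hg) | hg) | hg)
    · exact b8 g (Or.inl hg)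
    · exact he
    · exact a8 g (Or.inl hg)
    · exact hp g (Or.inl hg)
    · exact hp g (Or.inr hg)
    · exact a8 g (Or.inr hg)
    · exact b8 g (Or.inr hg)

end Pool.Agent.Helper51.TT
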