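import Pool.Agent.Helper51.TT.Proc

/-!
# MP_de303a_co Q2: the main induction
-/

namespace Pool.Agent.Helper51.TT

open Pool.Agent.Helper4.UpLoc

variable {V : Type}

theorem mem_if {v z : V} {Ka Kb : List V} {top : Bool}
    (h : z ∈ (if top then v :: (Ka ++ Kb) else [])) : z = v ∨ (z ∈ Ka ∨ z ∈ Kb) := by
  cases top
  · simp at h
  · simpa using h

theorem mem_if' {v z : V} {Ka Kb : List V} {top : Bool}
    (h : z ∈ (if top then [] else v :: (Ka ++ Kb))) : z = v ∨ (z ∈ Ka ∨ z ∈ Kb) := by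
  cases top
  · simpa using h
  · simp at h

/-- A triangle of type `M` in a process. -/
theorem Proc.M {N : V × V → V → Prop} {lab₁ lab₂ lab₃ : List V} {ed₁ ed₂ ed₃ : List (V × V)}
    {l u v : V} (h1 : Link N lab₁ ed₁ l v (fun z => (l, z)))
    (h2 : Link N lab₂ ed₂ u v (fun z => (z, u))) (h3 : Proc N lab₃ ed₃ l u)
    (hnd : (v :: (lab₁ ++ (lab₂ ++ lab₃))).Nodup)
    (e1 : ∀ g ∈ ed₁, g.1 ≠ u ∧ g.2 ≠ u) (e2 : ∀ g ∈ ed₂, g.1 ≠ l ∧ g.2 ≠ l) :
    Proc N (v :: (lab₁ ++ (lab₂ ++ lab₃))) ((l, v) :: (v, u) :: (ed₁ ++ (ed₂ ++ ed₃))) l u := by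
  classical
  obtain ⟨Sa, Sa', Ea, Ea', Ka, Ta, Ba, a1, a2, a3, a4, a5, a6, a7, a8⟩ := h1
  obtain ⟨Sb, Sb', Eb, Eb', Kb, Tb, Bb, b1, b2, b3, b4, b5, b6, b7, b8⟩ := h2
  obtain ⟨Sc, Sc', Ec, Ec', Kc, Qc, Tc, Bc, Qc', c1, c2, c3, c4, c5, c6, c7, q1, q1', q2, q2',
    c8⟩ := h3
  have ma : ∀ s, s ∈ lab₁ ↔ s ∈ Sa ∨ s ∈ Sa' := fun s => by rw [← a3.mem_iff, List.mem_append]
  have mb : ∀ s, s ∈ lab₂ ↔ s ∈ Sb ∨ s ∈ Sb' := fun s => by rw [← b3.mem_iff, List.mem_append]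
  have mc : ∀ s, s ∈ lab₃ ↔ s ∈ Sc ∨ s ∈ Sc' := fun s => by rw [← c3.mem_iff, List.mem_append]
  simp only [List.nodup_cons, List.nodup_append, List.mem_append, not_or] at hnd
  obtain ⟨⟨n0, n0', n0''⟩, n1, ⟨n2, n3, n4⟩, n5⟩ := hnd
  have dab : ∀ s, s ∈ lab₁ → s ∈ lab₂ → False := fun s h h' => n5 s h s (Or.inl h') rfl
  have dac : ∀ s, s ∈ lab₁ → s ∈ lab₃ → False := fun s h h' => n5 s h s (Or.inr h') rfl
  have dbc : ∀ s, s ∈ lab₂ → s ∈ lab₃ → False := fun s h h' => n4 s h s h' rfl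
  have p1 := a1.comp b1 (by simp) (by
    intro s hs hs'
    exact dab s ((ma s).2 (Or.inl hs)) ((mb s).2 (Or.inl hs')))
  have p2 := PhaseI.cons p1 (by
    rw [List.mem_append]
    rintro (h | h)
    · exact n0 ((ma v).2 (Or.inl h))
    · exact n0' ((mb v).2 (Or.inl h))) c1 (by
    intro x hx hx'
    have hx3 := (mc x).2 (Or.inl hx')
    simp only [List.mem_cons, List.mem_append] at hx
    rcases hx with rfl | hx | hx
    · exact n0'' hx3
    · exact dac x ((ma x).2 (Or.inl hx)) hx3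
    · exact dbc x ((mb x).2 (Or.inl hx)) hx3)
  have p3 := ((a2.weaken (req' := (v :: (Ka ++ Kb)) ++ Kc) (T' := Ta) (B' := Ba) (by
      intro r hr
      simp only [List.mem_cons] at hr
      simp only [List.mem_cons, List.mem_append]
      tauto) (by simp) (by simp)).comp b2 (by
      intro r hr
      left
      simp only [List.mem_cons] at hr
      simp only [List.mem_cons, List.mem_append]
      tauto) (by
      intro s hs hs'
      exact dab s ((ma s).2 (Or.inr hs)) ((mb s).2 (Or.inr hs')))).comp c2 (by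
      intro r hr
      left
      exact List.mem_append_right _ hr) (by
      intro s hs hs'
      have hs3 := (mc s).2 (Or.inr hs')
      rw [List.mem_append] at hs
      rcases hs with hs | hs
      · exact dac s ((ma s).2 (Or.inr hs)) hs3
      · exact dbc s ((mb s).2 (Or.inr hs)) hs3)
  have hEa : ∀ g, g ∈ Ea ∨ g ∈ Ea' → g ∈ ed₁ := by
    intro g hg
    rw [← a4.mem_iff]
    simp only [List.mem_append]
    tauto
  have hEb : ∀ g, g ∈ Eb ∨ g ∈ Eb' → g ∈ ed₂ := by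
    intro g hg
    rw [← b4.mem_iff]
    simp only [List.mem_append]
    tauto
  refine ⟨(v :: (Sa ++ Sb)) ++ Sc, (Sa' ++ Sb') ++ Sc', (Ea ++ Eb) ++ Ec, (Ea' ++ Eb') ++ Ec',
    (v :: (Ka ++ Kb)) ++ Kc,
    (l, v) :: (v, u) :: (Ka.map (fun z => (l, z)) ++ (Kb.map (fun z => (z, u)) ++ Qc)),
    (Ta ++ Tb) ++ Tc, (Ba ++ Bb) ++ Bc,
    (Ta.map (fun z => (l, z)) ++ Ba.map (fun z => (z, l))) ++
      ((Tb.map (fun z => (u, z)) ++ Bb.map (fun z => (z, u))) ++ Qc'), p2, ?_, ?_, ?_, ?_, ?_, ?_,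
    ?_, ?_, ?_, ?_, ?_⟩
  · intro H hH hr hS
    obtain ⟨H', L, R, d1, d2, d3, d4, d5, d6, d7⟩ := p3 H hH hr hS
    refine ⟨H', L, R, d1, d2, d3, d4, ?_, d6, d7⟩
    intro z
    rw [d5]
    simp only [List.mem_append]
    tauto
  · rw [List.perm_iff_count] at a3 b3 c3 ⊢
    intro x
    have := a3 x
    have := b3 x
    have := c3 x
    simp only [List.count_append, List.count_cons] at *
    omega
  · rw [List.perm_iff_count] at a4 b4 c4 ⊢
    intro x
    have := a4 x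
    have := b4 x
    have := c4 x
    simp only [List.count_append, List.count_cons] at *
    omega
  · intro z hz
    simp only [List.mem_append, List.mem_cons] at hz ⊢
    rcases hz with (rfl | hz | hz) | hz
    · exact Or.inl (Or.inl rfl)
    · exact Or.inl (Or.inr (Or.inl (a5 z hz)))
    · exact Or.inl (Or.inr (Or.inr (b5 z hz)))
    · exact Or.inr (c5 z hz)
  · intro z hz
    simp only [List.mem_append] at hz ⊢
    exact hz.imp (fun h => h.imp (a6 z) (b6 z)) (c6 z)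
  · intro z hz
    simp only [List.mem_append] at hz ⊢
    exact hz.imp (fun h => h.imp (a7 z) (b7 z)) (c7 z)
  · intro q hq
    simp only [List.mem_append, List.mem_cons, List.mem_map] at hq ⊢
    rcases hq with rfl | rfl | ⟨z, hz, rfl⟩ | ⟨z, hz, rfl⟩ | hq
    · exact Or.inl ⟨rfl, Or.inl (Or.inl rfl)⟩
    · exact Or.inr ⟨rfl, Or.inl (Or.inl rfl)⟩
    · exact Or.inl ⟨rfl, Or.inl (Or.inr (Or.inl hz))⟩
    · exact Or.inr ⟨rfl, Or.inl (Or.inr (Or.inr hz))⟩
    · rcases q1 q hq with ⟨h, h'⟩ | ⟨h, h'⟩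
      · exact Or.inl ⟨h, Or.inr h'⟩
      · exact Or.inr ⟨h, Or.inr h'⟩
  · intro z hz
    simp only [List.mem_append, List.mem_cons] at hz
    simp only [List.mem_append, List.mem_cons, List.mem_map]
    rcases hz with (rfl | hz | hz) | hz
    · exact ⟨(l, z), Or.inl rfl, Or.inr rfl⟩
    · exact ⟨(l, z), Or.inr (Or.inr (Or.inl ⟨z, hz, rfl⟩)), Or.inr rfl⟩
    · exact ⟨(z, u), Or.inr (Or.inr (Or.inr (Or.inl ⟨z, hz, rfl⟩))), Or.inl rfl⟩
    · obtain ⟨q, h, h'⟩ := q1' z hz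
      exact ⟨q, Or.inr (Or.inr (Or.inr (Or.inr h))), h'⟩
  · intro q hq
    simp only [List.mem_append, List.mem_map] at hq ⊢
    rcases hq with (⟨z, hz, rfl⟩ | ⟨z, hz, rfl⟩) | (⟨z, hz, rfl⟩ | ⟨z, hz, rfl⟩) | hq
    · exact Or.inl ⟨Or.inl rfl, Or.inl (Or.inl hz)⟩
    · exact Or.inr ⟨Or.inl rfl, Or.inl (Or.inl hz)⟩
    · exact Or.inl ⟨Or.inr rfl, Or.inl (Or.inr hz)⟩
    · exact Or.inr ⟨Or.inr rfl, Or.inl (Or.inr hz)⟩
    · rcases q2 q hq with ⟨h, h'⟩ | ⟨h, h'⟩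
      · exact Or.inl ⟨h, Or.inr h'⟩
      · exact Or.inr ⟨h, Or.inr h'⟩
  · intro z hz
    simp only [List.mem_append] at hz
    simp only [List.mem_append, List.mem_map]
    rcases hz with ((hz | hz) | hz) | ((hz | hz) | hz)
    · exact ⟨(l, z), Or.inl (Or.inl ⟨z, hz, rfl⟩), Or.inr rfl⟩
    · exact ⟨(u, z), Or.inr (Or.inl (Or.inl ⟨z, hz, rfl⟩)), Or.inr rfl⟩
    · obtain ⟨q, h, h'⟩ := q2' z (Or.inl hz)
      exact ⟨q, Or.inr (Or.inr h), h'⟩
    · exact ⟨(z, l), Or.inl (Or.inr ⟨z, hz, rfl⟩), Or.inl rfl⟩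
    · exact ⟨(z, u), Or.inr (Or.inl (Or.inr ⟨z, hz, rfl⟩)), Or.inl rfl⟩
    · obtain ⟨q, h, h'⟩ := q2' z (Or.inr hz)
      exact ⟨q, Or.inr (Or.inr h), h'⟩
  · intro g hg
    simp only [List.mem_append] at hg
    have ha : g ∈ Ea ∨ g ∈ Ea' → (g.1 ≠ l ∧ g.1 ≠ u) ∧ (g.2 ≠ l ∧ g.2 ≠ u) := fun h =>
      ⟨⟨(a8 g h).1, (e1 g (hEa g h)).1⟩, (a8 g h).2, (e1 g (hEa g h)).2⟩
    have hb : g ∈ Eb ∨ g ∈ Eb' → (g.1 ≠ l ∧ g.1 ≠ u) ∧ (g.2 ≠ l ∧ g.2 ≠ u) := fun h =>
      ⟨⟨(e2 g (hEb g h)).1, (b8 g h).1⟩, (e2 g (hEb g h)).2, (b8 g h).2⟩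
    rcases hg with ((hg | hg) | hg) | ((hg | hg) | hg)
    · exact ha (Or.inl hg)
    · exact hb (Or.inl hg)
    · exact c8 g (Or.inl hg)
    · exact ha (Or.inr hg)
    · exact hb (Or.inr hg)
    · exact c8 g (Or.inr hg)

/-- A triangle of type `U` (`top = true`) or `D` in a process. -/
theorem Proc.UD {N : V × V → V → Prop} {lab₁ lab₂ lab₃ : List V} {ed₁ ed₂ ed₃ : List (V × V)}
    {l u v x y : V} (top : Bool) {f₁ f₂ : V → V × V}
    (hxy : (x = l ∧ y = u) ∨ (x = u ∧ y = l))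
    (hf₁ : f₁ = if top then (fun z => (x, z)) else (fun z => (z, x)))
    (hf₂ : f₂ = if top then (fun z => (y, z)) else (fun z => (z, y)))
    (h1 : Link N lab₁ ed₁ x v f₁)
    (h2 : Link N lab₂ ed₂ y v f₂) (h3 : Proc N lab₃ ed₃ l u)
    (hnd : (v :: (lab₁ ++ (lab₂ ++ lab₃))).Nodup)
    (e1 : ∀ g ∈ ed₁, g.1 ≠ y ∧ g.2 ≠ y) (e2 : ∀ g ∈ ed₂, g.1 ≠ x ∧ g.2 ≠ x) :
    Proc N (v :: (lab₁ ++ (lab₂ ++ lab₃))) (f₁ v :: f₂ v :: (ed₁ ++ (ed₂ ++ ed₃))) l u := by
  classical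
  obtain ⟨Sa, Sa', Ea, Ea', Ka, Ta, Ba, a1, a2, a3, a4, a5, a6, a7, a8⟩ := h1
  obtain ⟨Sb, Sb', Eb, Eb', Kb, Tb, Bb, b1, b2, b3, b4, b5, b6, b7, b8⟩ := h2
  obtain ⟨Sc, Sc', Ec, Ec', Kc, Qc, Tc, Bc, Qc', c1, c2, c3, c4, c5, c6, c7, q1, q1', q2, q2',
    c8⟩ := h3
  have ma : ∀ s, s ∈ lab₁ ↔ s ∈ Sa ∨ s ∈ Sa' := fun s => by rw [← a3.mem_iff, List.mem_append]
  have mb : ∀ s, s ∈ lab₂ ↔ s ∈ Sb ∨ s ∈ Sb' := fun s => by rw [← b3.mem_iff, List.mem_append]
  have mc : ∀ s, s ∈ lab₃ ↔ s ∈ Sc ∨ s ∈ Sc' := fun s => by rw [← c3.mem_iff, List.mem_append]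
  simp only [List.nodup_cons, List.nodup_append, List.mem_append, not_or] at hnd
  obtain ⟨⟨n0, n0', n0''⟩, n1, ⟨n2, n3, n4⟩, n5⟩ := hnd
  have na : (Sa ++ Sa').Nodup := a3.nodup_iff.2 n1
  have nb : (Sb ++ Sb').Nodup := b3.nodup_iff.2 n2
  rw [List.nodup_append] at na nb
  have dab : ∀ s, s ∈ lab₁ → s ∈ lab₂ → False := fun s h h' => n5 s h s (Or.inl h') rfl
  have dac : ∀ s, s ∈ lab₁ → s ∈ lab₃ → False := fun s h h' => n5 s h s (Or.inr h') rfl
  have dbc : ∀ s, s ∈ lab₂ → s ∈ lab₃ → False := fun s h h' => n4 s h s h' rfl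
  have p1 := a1.comp b1 (by simp) (by
    intro s hs hs'
    exact dab s ((ma s).2 (Or.inl hs)) ((mb s).2 (Or.inl hs')))
  have hv : v ∉ Sa ++ Sb := by
    rw [List.mem_append]
    rintro (h | h)
    · exact n0 ((ma v).2 (Or.inl h))
    · exact n0' ((mb v).2 (Or.inl h))
  have p2 : Phase N Kc (v :: (Sa ++ Sb)) (Ea ++ Eb) (v :: (Ka ++ Kb))
      (if top then v :: (Ka ++ Kb) else []) (if top then [] else v :: (Ka ++ Kb)) := by
    cases top
    · exact (stackBot p1 hv).weaken (by simp) (by simp) (by simp)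
    · exact (stackTop p1 hv).weaken (by simp) (by simp) (by simp)
  have p3 := ((p2.comp a2 (by
      intro r hr
      right
      simp only [List.mem_cons] at hr
      simp only [List.mem_cons, List.mem_append]
      tauto) (by
      intro s hs hs'
      have hs3 := (ma s).2 (Or.inr hs')
      simp only [List.mem_cons, List.mem_append] at hs
      rcases hs with rfl | hs | hs
      · exact n0 hs3
      · exact na.2.2 s hs s hs' rfl
      · exact dab s hs3 ((mb s).2 (Or.inl hs)))).comp b2 (by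
      intro r hr
      right
      simp only [List.mem_cons] at hr
      simp only [List.mem_cons, List.mem_append]
      tauto) (by
      intro s hs hs'
      have hs3 := (mb s).2 (Or.inr hs')
      simp only [List.mem_cons, List.mem_append] at hs
      rcases hs with (rfl | hs | hs) | hs
      · exact n0' hs3
      · exact dab s ((ma s).2 (Or.inl hs)) hs3
      · exact nb.2.2 s hs s hs' rfl
      · exact dab s ((ma s).2 (Or.inr hs)) hs3)).comp c2 (by
      intro r hr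
      exact Or.inl hr) (by
      intro s hs hs'
      have hs3 := (mc s).2 (Or.inr hs')
      simp only [List.mem_cons, List.mem_append] at hs
      rcases hs with ((rfl | hs | hs) | hs) | hs
      · exact n0'' hs3
      · exact dac s ((ma s).2 (Or.inl hs)) hs3
      · exact dbc s ((mb s).2 (Or.inl hs)) hs3
      · exact dac s ((ma s).2 (Or.inr hs)) hs3
      · exact dbc s ((mb s).2 (Or.inr hs)) hs3)
  have hEa : ∀ g, g ∈ Ea ∨ g ∈ Ea' → g ∈ ed₁ := by
    intro g hg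
    rw [← a4.mem_iff]
    simp only [List.mem_append]
    tauto
  have hEb : ∀ g, g ∈ Eb ∨ g ∈ Eb' → g ∈ ed₂ := by
    intro g hg
    rw [← b4.mem_iff]
    simp only [List.mem_append]
    tauto
  have hx : x = l ∨ x = u := by rcases hxy with h | h <;> simp [h.1]
  have hy : y = l ∨ y = u := by rcases hxy with h | h <;> simp [h.2]
  have hlu : ∀ z : V, z ≠ x → z ≠ y → z ≠ l ∧ z ≠ u := by
    intro z h h'
    rcases hxy with ⟨rfl, rfl⟩ | ⟨rfl, rfl⟩
    · exact ⟨h, h'⟩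
    · exact ⟨h', h⟩
  refine ⟨Sc, ((((v :: (Sa ++ Sb)) ++ Sa') ++ Sb') ++ Sc'), Ec,
    (((Ea ++ Eb) ++ Ea') ++ Eb') ++ Ec', Kc, Qc,
    ((((if top then v :: (Ka ++ Kb) else []) ++ Ta) ++ Tb) ++ Tc),
    ((((if top then [] else v :: (Ka ++ Kb)) ++ Ba) ++ Bb) ++ Bc),
    (f₁ v :: f₂ v :: (Ka.map f₁ ++ Kb.map f₂)) ++
    ((Ta.map (fun z => (x, z)) ++ Ba.map (fun z => (z, x))) ++
      ((Tb.map (fun z => (y, z)) ++ Bb.map (fun z => (z, y))) ++ Qc')), c1, ?_, ?_, ?_, c5, ?_, ?_,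
    q1, q1', ?_, ?_, ?_⟩
  · intro H hH hr hS
    obtain ⟨H', L, R, d1, d2, d3, d4, d5, d6, d7⟩ := p3 H hH hr hS
    refine ⟨H', L, R, d1, d2, d3, d4, ?_, d6, d7⟩
    intro z
    rw [d5]
    refine or_congr_right (List.Perm.mem_iff ?_)
    rw [List.perm_iff_count]
    intro x
    cases top
    · simp only [List.count_append, List.count_cons, List.count_nil, Bool.false_eq_true, if_false]
      omega
    · simp only [List.count_append, List.count_cons, List.count_nil, if_true]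
      omega
  · rw [List.perm_iff_count] at a3 b3 c3 ⊢
    intro x
    have := a3 x
    have := b3 x
    have := c3 x
    simp only [List.count_append, List.count_cons] at *
    omega
  · rw [List.perm_iff_count] at a4 b4 c4 ⊢
    intro x
    have := a4 x
    have := b4 x
    have := c4 x
    simp only [List.count_append, List.count_cons] at *
    omega
  · intro z hz
    rw [List.mem_append, List.mem_append, List.mem_append] at hz
    simp only [List.mem_append, List.mem_cons]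
    rcases hz with ((hz | hz) | hz) | hz
    · rcases mem_if hz with rfl | hz | hz
      · exact Or.inl (Or.inl (Or.inl (Or.inl rfl)))
      · exact Or.inl (Or.inl (Or.inl (Or.inr (Or.inl (a5 z hz)))))
      · exact Or.inl (Or.inl (Or.inl (Or.inr (Or.inr (b5 z hz)))))
    · exact Or.inl (Or.inl (Or.inr (a6 z hz)))
    · exact Or.inl (Or.inr (b6 z hz))
    · exact Or.inr (c6 z hz)
  · intro z hz
    rw [List.mem_append, List.mem_append, List.mem_append] at hz
    simp only [List.mem_append, List.mem_cons]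
    rcases hz with ((hz | hz) | hz) | hz
    · rcases mem_if' hz with rfl | hz | hz
      · exact Or.inl (Or.inl (Or.inl (Or.inl rfl)))
      · exact Or.inl (Or.inl (Or.inl (Or.inr (Or.inl (a5 z hz)))))
      · exact Or.inl (Or.inl (Or.inl (Or.inr (Or.inr (b5 z hz)))))
    · exact Or.inl (Or.inl (Or.inr (a7 z hz)))
    · exact Or.inl (Or.inr (b7 z hz))
    · exact Or.inr (c7 z hz)
  · -- port edges
    intro q hq
    simp only [List.mem_append, List.mem_cons, List.mem_map] at hq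
    rcases hq with (hq | hq | ⟨z, hz, hq⟩ | ⟨z, hz, hq⟩) | (⟨z, hz, rfl⟩ | ⟨z, hz, rfl⟩) |
      (⟨z, hz, rfl⟩ | ⟨z, hz, rfl⟩) | hq
    · subst hf₁
      cases top
      · right
        simp only [Bool.false_eq_true, if_false] at hq
        subst hq
        exact ⟨hx, by simp⟩
      · left
        simp only [if_true] at hq
        subst hq
        exact ⟨hx, by simp⟩
    · subst hf₂
      cases top
      · right
        simp only [Bool.false_eq_true, if_false] at hq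
        subst hq
        exact ⟨hy, by simp⟩
      · left
        simp only [if_true] at hq
        subst hq
        exact ⟨hy, by simp⟩
    · subst hf₁
      cases top
      · right
        simp only [Bool.false_eq_true, if_false] at hq
        subst hq
        exact ⟨hx, by simp [hz]⟩
      · left
        simp only [if_true] at hq
        subst hq
        exact ⟨hx, by simp [hz]⟩
    · subst hf₂
      cases top
      · right
        simp only [Bool.false_eq_true, if_false] at hq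
        subst hq
        exact ⟨hy, by simp [hz]⟩
      · left
        simp only [if_true] at hq
        subst hq
        exact ⟨hy, by simp [hz]⟩
    · exact Or.inl ⟨hx, by simp [hz]⟩
    · exact Or.inr ⟨hx, by simp [hz]⟩
    · exact Or.inl ⟨hy, by simp [hz]⟩
    · exact Or.inr ⟨hy, by simp [hz]⟩
    · rcases q2 q hq with ⟨h, h'⟩ | ⟨h, h'⟩
      · exact Or.inl ⟨h, List.mem_append_right _ h'⟩
      · exact Or.inr ⟨h, List.mem_append_right _ h'⟩
  · intro z hz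
    have hz' : z = v ∨ (z ∈ Ka ∨ z ∈ Kb) ∨ (z ∈ Ta ∨ z ∈ Ba) ∨ (z ∈ Tb ∨ z ∈ Bb) ∨
        (z ∈ Tc ∨ z ∈ Bc) := by
      rw [List.mem_append, List.mem_append, List.mem_append, List.mem_append, List.mem_append,
        List.mem_append] at hz
      rcases hz with (((hz | hz) | hz) | hz) | ((hz | hz) | hz) | hz
      · exact (mem_if hz).imp id Or.inl
      · exact Or.inr (Or.inr (Or.inl (Or.inl hz)))
      · exact Or.inr (Or.inr (Or.inr (Or.inl (Or.inl hz))))
      · exact Or.inr (Or.inr (Or.inr (Or.inr (Or.inl hz))))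
      · exact (mem_if' hz).imp id Or.inl
      · exact Or.inr (Or.inr (Or.inl (Or.inr hz)))
      · exact Or.inr (Or.inr (Or.inr (Or.inl (Or.inr hz))))
      · exact Or.inr (Or.inr (Or.inr (Or.inr (Or.inr hz))))
    have i1 : ∀ z, Inc z (f₁ z) := by
      intro z
      subst hf₁
      cases top
      · exact Or.inl rfl
      · exact Or.inr rfl
    have i2 : ∀ z, Inc z (f₂ z) := by
      intro z
      subst hf₂
      cases top
      · exact Or.inl rfl
      · exact Or.inr rfl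
    simp only [List.mem_append, List.mem_cons, List.mem_map]
    rcases hz' with rfl | (hz | hz) | (hz | hz) | (hz | hz) | hz
    · exact ⟨f₁ z, Or.inl (Or.inl rfl), i1 z⟩
    · exact ⟨f₁ z, Or.inl (Or.inr (Or.inr (Or.inl ⟨z, hz, rfl⟩))), i1 z⟩
    · exact ⟨f₂ z, Or.inl (Or.inr (Or.inr (Or.inr ⟨z, hz, rfl⟩))), i2 z⟩
    · exact ⟨(x, z), Or.inr (Or.inl (Or.inl ⟨z, hz, rfl⟩)), Or.inr rfl⟩
    · exact ⟨(z, x), Or.inr (Or.inl (Or.inr ⟨z, hz, rfl⟩)), Or.inl rfl⟩
    · exact ⟨(y, z), Or.inr (Or.inr (Or.inl (Or.inl ⟨z, hz, rfl⟩))), Or.inr rfl⟩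
    · exact ⟨(z, y), Or.inr (Or.inr (Or.inl (Or.inr ⟨z, hz, rfl⟩))), Or.inl rfl⟩
    · obtain ⟨q, h, h'⟩ := q2' z hz
      exact ⟨q, Or.inr (Or.inr (Or.inr h)), h'⟩
  · intro g hg
    simp only [List.mem_append] at hg
    have ha : g ∈ Ea ∨ g ∈ Ea' → (g.1 ≠ l ∧ g.1 ≠ u) ∧ (g.2 ≠ l ∧ g.2 ≠ u) := fun h =>
      ⟨hlu _ (a8 g h).1 (e1 g (hEa g h)).1, hlu _ (a8 g h).2 (e1 g (hEa g h)).2⟩
    have hb : g ∈ Eb ∨ g ∈ Eb' → (g.1 ≠ l ∧ g.1 ≠ u) ∧ (g.2 ≠ l ∧ g.2 ≠ u) := fun h =>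
      ⟨hlu _ (e2 g (hEb g h)).1 (b8 g h).1, hlu _ (e2 g (hEb g h)).2 (b8 g h).2⟩
    rcases hg with hg | ((((hg | hg) | hg) | hg) | hg)
    · exact c8 g (Or.inl hg)
    · exact ha (Or.inl hg)
    · exact hb (Or.inl hg)
    · exact ha (Or.inr hg)
    · exact hb (Or.inr hg)
    · exact c8 g (Or.inr hg)

end Pool.Agent.Helper51.TT
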