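import Pool.Agent.Helper51.TT.Link

/-!
# MP_de303a_co Q2: processes
-/

namespace Pool.Agent.Helper51.TT

open Pool.Agent.Helper4.UpLoc

variable {V : Type}

/-- Adjacency in the set `G` of directed edges. -/
def Adj (G : Set (V × V)) (x y : V) : Prop := (x, y) ∈ G ∨ (y, x) ∈ G

/-- The edge `g` and the vertex `w` are near. -/
def Near (G : Set (V × V)) (g : V × V) (w : V) : Prop :=
  ∃ z p q z', Inc z g ∧ Adj G z p ∧ (p = q ∨ Adj G p q) ∧ Adj G q z' ∧ (z' = w ∨ Adj G z' w)

/-- The first phase of a process: vertices between the ports are put on top of a hull. -/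
def PhaseI (N : V × V → V → Prop) (S : List V) (E : List (V × V)) (K : List V) : Prop :=
  ∀ H : Hl V, HOK N H → (∀ s ∈ S, s ∉ H.W) →
    ∃ (H' : Hl V) (I : List V), HOK N H' ∧ H'.W = H.W ++ I ∧
      (∀ s, s ∈ I ↔ s ∈ S) ∧ (H'.X ++ H'.C).Perm (H.X ++ (H.C ++ E)) ∧
      (∀ z, z ∈ H'.K ↔ z ∈ H.K ∨ z ∈ K)

theorem PhaseI.nil (N : V × V → V → Prop) : PhaseI N [] [] [] := by
  intro H hH _
  exact ⟨H, [], hH, by simp, by simp, by simp, by simp⟩

theorem PhaseI.cons {N : V × V → V → Prop} {w : V} {S S' : List V} {E E' : List (V × V)}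
    {K K' : List V} (h : Phase N [w] S E K [] []) (hw : w ∉ S) (h' : PhaseI N S' E' K')
    (hd : ∀ x ∈ w :: S, x ∉ S') :
    PhaseI N ((w :: S) ++ S') (E ++ E') ((w :: K) ++ K') := by
  classical
  obtain ⟨Hc, c1, c2, c3, c4⟩ := h.hull hw
  intro H hH hS
  have m := stack_ok hH c1 (by
      intro x hx hx'
      rw [c2] at hx'
      exact hS x (List.mem_append_left _ (List.mem_cons.2 hx')) hx)
  obtain ⟨H', I, a1, a2, a3, a4, a5⟩ := h' _ m (by
    intro s hs hs'
    rw [List.mem_append] at hs'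
    rcases hs' with hs' | hs'
    · exact hS s (List.mem_append_right _ hs) hs'
    · rw [c2] at hs'
      exact hd s (List.mem_cons.2 hs') hs)
  refine ⟨H', Hc.W ++ I, a1, ?_, ?_, ?_, ?_⟩
  · rw [a2]; simp
  · intro s
    rw [List.mem_append, List.mem_append, a3, c2, List.mem_cons]
  · rw [List.perm_iff_count] at a4 c3 ⊢
    intro x
    have := a4 x
    have := c3 x
    simp only [List.count_append] at *
    omega
  · intro z
    rw [a5]
    simp only [List.mem_append, List.mem_cons, c4]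
    tauto

/-- The state of a process before its result is formed. -/
def Proc (N : V × V → V → Prop) (lab : List V) (ed : List (V × V)) (l u : V) : Prop :=
  ∃ (S₁ S₂ : List V) (E₁ E₂ : List (V × V)) (K : List V) (Q₁ : List (V × V)) (T B : List V)
    (Q₂ : List (V × V)),
    PhaseI N S₁ E₁ K ∧ Phase N K S₂ E₂ (T ++ B) T B ∧ (S₁ ++ S₂).Perm lab ∧
    (E₁ ++ (E₂ ++ (Q₁ ++ Q₂))).Perm ed ∧
    (∀ z ∈ K, z ∈ S₁) ∧ (∀ z ∈ T, z ∈ S₂) ∧ (∀ z ∈ B, z ∈ S₂) ∧
    (∀ q ∈ Q₁, (q.1 = l ∧ q.2 ∈ K) ∨ (q.2 = u ∧ q.1 ∈ K)) ∧ (∀ z ∈ K, ∃ q ∈ Q₁, Inc z q) ∧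
    (∀ q ∈ Q₂, ((q.1 = l ∨ q.1 = u) ∧ q.2 ∈ T) ∨ ((q.2 = l ∨ q.2 = u) ∧ q.1 ∈ B)) ∧
    (∀ z, z ∈ T ∨ z ∈ B → ∃ q ∈ Q₂, Inc z q) ∧
    ∀ g, g ∈ E₁ ∨ g ∈ E₂ → (g.1 ≠ l ∧ g.1 ≠ u) ∧ (g.2 ≠ l ∧ g.2 ≠ u)

theorem Proc.congr {N : V × V → V → Prop} {lab lab' : List V} {ed ed' : List (V × V)} {l u : V}
    (h : Proc N lab ed l u) (h1 : lab.Perm lab') (h2 : ed.Perm ed') : Proc N lab' ed' l u := by
  obtain ⟨S₁, S₂, E₁, E₂, K, Q₁, T, B, Q₂, a1, a2, a3, a4, a5⟩ := h
  exact ⟨S₁, S₂, E₁, E₂, K, Q₁, T, B, Q₂, a1, a2, a3.trans h1, a4.trans h2, a5⟩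

theorem Proc.nil (N : V × V → V → Prop) (l u : V) : Proc N [] [] l u :=
  ⟨[], [], [], [], [], [], [], [], [], PhaseI.nil N, Phase.id N _, by simp, by simp, by simp,
    by simp, by simp, by simp, by simp, by simp, by simp, by simp⟩

theorem adj_symm {G : Set (V × V)} {x y : V} (h : Adj G x y) : Adj G y x := h.symm

theorem bef_l {L I R : List V} {l u x : V} (h : x ∈ I ∨ x ∈ R) :
    Bef (L ++ l :: (I ++ u :: R)) l x := by
  rw [bef_append, bef_cons]
  refine Or.inr (Or.inr (Or.inl ⟨rfl, ?_⟩))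
  rw [List.mem_append, List.mem_cons]
  exact h.imp id Or.inr

theorem bef_l' {L I R : List V} {l u x : V} (h : x ∈ L) :
    Bef (L ++ l :: (I ++ u :: R)) x l := by
  rw [bef_append]
  exact Or.inr (Or.inl ⟨h, List.mem_cons_self⟩)

theorem bef_u {L I R : List V} {l u x : V} (h : x ∈ L ∨ x ∈ I) :
    Bef (L ++ l :: (I ++ u :: R)) x u := by
  rw [bef_append, bef_cons, bef_append]
  rcases h with h | h
  · refine Or.inr (Or.inl ⟨h, ?_⟩)
    simp
  · exact Or.inr (Or.inr (Or.inr (Or.inr (Or.inl ⟨h, List.mem_cons_self⟩))))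

theorem bef_u' {L I R : List V} {l u x : V} (h : x ∈ R) :
    Bef (L ++ l :: (I ++ u :: R)) u x := by
  rw [bef_append, bef_cons, bef_append, bef_cons]
  exact Or.inr (Or.inr (Or.inr (Or.inr (Or.inr (Or.inl ⟨rfl, h⟩)))))

/-- **The result of a process.** -/
theorem pok_of_proc {G : Set (V × V)} {lab : List V} {ed : List (V × V)} {l u : V}
    (hnd : (l :: u :: lab).Nodup) (hG : ∀ e ∈ ed, e ∈ G) (hlu : (l, u) ∈ G)
    (h : Proc (Near G) lab ed l u) :
    ∃ p : Pr V, POK (Near G) p l u ∧ p.vs.Perm lab ∧ (p.X ++ p.Q).Perm ed := by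
  classical
  obtain ⟨S₁, S₂, E₁, E₂, K, Q₁, T, B, Q₂, a1, a2, a3, a4, a5, a6, a7, q1, q1', q2, q2', hE⟩ := h
  have m : ∀ s, s ∈ lab ↔ s ∈ S₁ ∨ s ∈ S₂ := fun s => by rw [← a3.mem_iff, List.mem_append]
  have n12 : (S₁ ++ S₂).Nodup := a3.nodup_iff.2 (by simp only [List.nodup_cons] at hnd; exact hnd.2.2)
  simp only [List.nodup_cons, List.mem_cons, not_or] at hnd
  obtain ⟨⟨hlu', hl⟩, hu, hlab⟩ := hnd
  rw [List.nodup_append] at n12
  -- first phase
  obtain ⟨HI, I, i1, i2, i3, i4, i5⟩ := a1 ⟨[l], [], [], []⟩ (hok_single _ l [] (by simp)) (by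
    intro s hs hs'
    rw [List.mem_singleton] at hs'
    exact hl (hs' ▸ (m s).2 (Or.inl hs)))
  have hKI : ∀ z ∈ HI.K, z ∈ K := fun z hz => by simpa using (i5 z).1 hz
  have m1 := stack_ok i1 (hok_single (Near G) u [] (by simp)) (by
    intro x hx hx'
    rw [List.mem_singleton] at hx'
    subst hx'
    rw [i2, List.mem_append, List.mem_singleton, i3] at hx
    rcases hx with rfl | hx
    · exact hlu' rfl
    · exact hu ((m x).2 (Or.inl hx)))
  obtain ⟨H, L, R, b1, b2, b3, b4, b5, b6, b7⟩ := a2 _ m1 (by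
    intro r hr
    simp only [List.append_nil]
    exact (i5 r).2 (Or.inr hr)) (by
    intro s hs hs'
    simp only [i2, List.mem_append, List.mem_singleton, i3] at hs'
    rcases hs' with (rfl | hs') | rfl
    · exact hl ((m s).2 (Or.inr hs))
    · exact n12.2.2 s hs' s hs rfl
    · exact hu ((m s).2 (Or.inr hs)))
  have hW : H.W = L ++ l :: (I ++ u :: R) := by
    rw [b2, i2]; simp
  have hvs : ∀ x, x ∈ L ++ (I ++ R) ↔ x ∈ lab := by
    intro x
    have := b3 x
    have := i3 x
    have := m x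
    simp only [List.mem_append]
    tauto
  have hK : ∀ z, z ∈ H.K ↔ z ∈ K ∨ z ∈ T ∨ z ∈ B := by
    intro z
    rw [b5]
    simp only [List.append_nil, List.mem_append, i5, List.not_mem_nil, false_or]
  have hXC : (H.X ++ H.C).Perm (E₁ ++ E₂) := by
    rw [List.perm_iff_count] at b4 i4 ⊢
    intro x
    have := b4 x
    have := i4 x
    simp only [List.count_append, List.count_nil] at *
    omega
  have hEE : ∀ g, g ∈ H.X ∨ g ∈ H.C → (g.1 ≠ l ∧ g.1 ≠ u) ∧ (g.2 ≠ l ∧ g.2 ≠ u) := by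
    intro g hg
    refine hE g ?_
    rw [← List.mem_append, ← hXC.mem_iff, List.mem_append]
    exact hg
  have hWv : ∀ x, x ∈ H.W → x ≠ l → x ≠ u → x ∈ L ++ (I ++ R) := by
    intro x hx hxl hxu
    rw [hW] at hx
    simp only [List.mem_append, List.mem_cons] at hx ⊢
    tauto
  have hQport : ∀ q, q ∈ Q₁ ∨ q ∈ Q₂ → ∀ z, Inc z q → z = l ∨ z = u ∨ z ∈ H.K := by
    intro q hq z hz
    rcases hq with hq | hq
    · rcases q1 q hq with ⟨c1, c2⟩ | ⟨c1, c2⟩
      · rcases hz with rfl | rfl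
        · exact Or.inl c1
        · exact Or.inr (Or.inr ((hK _).2 (Or.inl c2)))
      · rcases hz with rfl | rfl
        · exact Or.inr (Or.inr ((hK _).2 (Or.inl c2)))
        · exact Or.inr (Or.inl c1)
    · rcases q2 q hq with ⟨c1, c2⟩ | ⟨c1, c2⟩
      · rcases hz with rfl | rfl
        · exact c1.imp id Or.inl
        · exact Or.inr (Or.inr ((hK _).2 (Or.inr (Or.inl c2))))
      · rcases hz with rfl | rfl
        · exact Or.inr (Or.inr ((hK _).2 (Or.inr (Or.inr c2))))
        · exact c1.imp id Or.inl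
  -- every process vertex is adjacent to a port
  have hadj : ∀ z ∈ H.K, ∃ p, (p = l ∨ p = u) ∧ Adj G z p := by
    intro z hz
    have hzW := b1.kw z hz
    have hq : ∃ q, (q ∈ Q₁ ∨ q ∈ Q₂) ∧ Inc z q := by
      rw [hK] at hz
      rcases hz with hz | hz
      · obtain ⟨q, c1, c2⟩ := q1' z hz
        exact ⟨q, Or.inl c1, c2⟩
      · obtain ⟨q, c1, c2⟩ := q2' z hz
        exact ⟨q, Or.inr c1, c2⟩
    obtain ⟨q, hq, hzq⟩ := hq
    have hqG : q ∈ G := by
      refine hG q ((a4.mem_iff).1 ?_)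
      simp only [List.mem_append]
      tauto
    have hlab : z ∈ lab := by
      rw [hK] at hz
      rcases hz with hz | hz | hz
      · exact (m z).2 (Or.inl (a5 z hz))
      · exact (m z).2 (Or.inr (a6 z hz))
      · exact (m z).2 (Or.inr (a7 z hz))
    have hzl : z ≠ l := fun hc => hl (hc ▸ hlab)
    have hzu : z ≠ u := fun hc => hu (hc ▸ hlab)
    have hport : (q.1 = l ∨ q.1 = u) ∨ (q.2 = l ∨ q.2 = u) := by
      rcases hq with hq | hq
      · rcases q1 q hq with ⟨c1, -⟩ | ⟨c1, -⟩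
        · exact Or.inl (Or.inl c1)
        · exact Or.inr (Or.inr c1)
      · rcases q2 q hq with ⟨c1, -⟩ | ⟨c1, -⟩
        · exact Or.inl c1
        · exact Or.inr c1
    rcases hzq with hzq | hzq
    · rcases hport with hp | hp
      · rw [← hzq] at hp
        exact absurd hp (by tauto)
      · exact ⟨q.2, hp, Or.inl (by rw [hzq]; exact hqG)⟩
    · rcases hport with hp | hp
      · exact ⟨q.1, hp, Or.inr (by rw [hzq]; exact hqG)⟩
      · rw [← hzq] at hp
        exact absurd hp (by tauto)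
  have hpp : ∀ p q, (p = l ∨ p = u) → (q = l ∨ q = u) → p = q ∨ Adj G p q := by
    rintro p q (rfl | rfl) (rfl | rfl)
    · exact Or.inl rfl
    · exact Or.inr (Or.inl hlu)
    · exact Or.inr (Or.inr hlu)
    · exact Or.inl rfl
  have hCG : ∀ g ∈ H.C, g ∈ G := by
    intro g hg
    refine hG g ((a4.mem_iff).1 ?_)
    have : g ∈ E₁ ++ E₂ := by
      rw [← hXC.mem_iff]
      exact List.mem_append_right _ hg
    simp only [List.mem_append] at this ⊢
    tauto
  refine ⟨⟨L, I, R, H.C ++ H.X, Q₁ ++ Q₂⟩, ?_, ?_, ?_⟩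
  · have hword : (⟨L, I, R, H.C ++ H.X, Q₁ ++ Q₂⟩ : Pr V).word l u = H.W := by
      rw [hW]; rfl
    have hvs' : (⟨L, I, R, H.C ++ H.X, Q₁ ++ Q₂⟩ : Pr V).vs = L ++ (I ++ R) := rfl
    constructor
    · rw [hword]
      exact b1.nd
    · intro g hg
      rw [hvs']
      have hg' : g ∈ H.X ∨ g ∈ H.C := (List.mem_append.1 hg).symm
      obtain ⟨⟨c1, c2⟩, c3, c4⟩ := hEE g hg'
      have : g.1 ∈ H.W ∧ g.2 ∈ H.W := by
        rcases hg' with hg' | hg'
        · exact ⟨(b1.xw g hg').1.1, (b1.xw g hg').2.1⟩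
        · exact ⟨(b1.cw g hg').1, (b1.cw g hg').2.1⟩
      exact ⟨hWv _ this.1 c1 c2, hWv _ this.2 c3 c4⟩
    · intro g hg
      rw [hvs']
      rcases List.mem_append.1 hg with hg | hg
      · rcases q1 g hg with ⟨c1, c2⟩ | ⟨c1, c2⟩
        · right
          exact ⟨(hvs _).2 ((m _).2 (Or.inl (a5 _ c2))), Or.inl c1⟩
        · left
          exact ⟨(hvs _).2 ((m _).2 (Or.inl (a5 _ c2))), Or.inr c1⟩
      · rcases q2 g hg with ⟨c1, c2⟩ | ⟨c1, c2⟩
        · right
          exact ⟨(hvs _).2 ((m _).2 (Or.inr (a6 _ c2))), c1⟩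
        · left
          exact ⟨(hvs _).2 ((m _).2 (Or.inr (a7 _ c2))), c1⟩
    · intro g hg
      rw [hword]
      rcases List.mem_append.1 hg with hg | hg
      · exact b1.oc g hg
      · exact b1.ox g hg
    · intro g hg
      rw [hword, hW]
      rcases List.mem_append.1 hg with hg | hg
      · rcases q1 g hg with ⟨c1, c2⟩ | ⟨c1, c2⟩
        · rw [c1]
          exact bef_l (Or.inl ((i3 _).2 (a5 _ c2)))
        · rw [c1]
          exact bef_u (Or.inr ((i3 _).2 (a5 _ c2)))
      · rcases q2 g hg with ⟨c1, c2⟩ | ⟨c1, c2⟩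
        · rcases c1 with c1 | c1
          · rw [c1]
            exact bef_l (Or.inr (b6 _ c2))
          · rw [c1]
            exact bef_u' (b6 _ c2)
        · rcases c1 with c1 | c1
          · rw [c1]
            exact bef_l' (b7 _ c2)
          · rw [c1]
            exact bef_u (Or.inl (b7 _ c2))
    · intro g hg w hb1 hb2 e₁ e₂ hi1 hi2 he1 he2
      rw [hword] at hb1 hb2
      change Bef (H.C ++ H.X) g e₂ at he2
      change e₁ ∈ Q₁ ++ Q₂ ∨ Bef (H.C ++ H.X) e₁ g at he1
      change g ∈ H.C ++ H.X at hg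
      -- `w` is not a port
      have hw : w ≠ l ∧ w ≠ u := by
        have h2 := hEE e₂ (List.mem_append.1 he2.right).symm
        rcases hi2 with rfl | rfl
        · exact h2.1
        · exact h2.2
      have hQK : e₁ ∈ Q₁ ++ Q₂ → w ∈ H.K := by
        intro hq
        rcases hQport e₁ (List.mem_append.1 hq) w hi1 with h | h | h
        · exact absurd h hw.1
        · exact absurd h hw.2
        · exact h
      by_cases hgC : g ∈ H.C
      · -- `g` in the column
        obtain ⟨-, -, hgK⟩ := b1.cw g hgC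
        have hz : ∃ z, Inc z g ∧ z ∈ H.K := by
          rcases hgK with h | h
          · exact ⟨g.1, Or.inl rfl, h⟩
          · exact ⟨g.2, Or.inr rfl, h⟩
        obtain ⟨z, hzg, hzK⟩ := hz
        obtain ⟨p, hp, hzp⟩ := hadj z hzK
        have hfin : ∀ z' ∈ H.K, (z' = w ∨ Adj G z' w) → Near G g w := by
          intro z' hz' hw'
          obtain ⟨q, hq, hzq⟩ := hadj z' hz'
          exact ⟨z, p, q, z', hzg, hzp, hpp p q hp hq, adj_symm hzq, hw'⟩
        rcases he1 with he1 | he1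
        · exact hfin w (hQK he1) (Or.inl rfl)
        · -- `e₁` before `g`: it is in the column, or `g` is also in `X`
          have he1C : e₁ ∈ H.C ∨ e₁ ∈ H.X := List.mem_append.1 he1.left
          have hgX : g ∉ H.X := by
            intro hgX
            rcases hgK with h | h
            · exact (b1.xw g hgX).1.2 h
            · exact (b1.xw g hgX).2.2 h
          rw [bef_append] at he1
          have he1C : e₁ ∈ H.C := by
            rcases he1 with h | ⟨h, -⟩ | h
            · exact h.left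
            · exact h
            · exact absurd h.right hgX
          obtain ⟨-, -, hK1⟩ := b1.cw e₁ he1C
          have hG1 := hCG e₁ he1C
          rcases hi1 with hi1 | hi1
          · rcases hK1 with h | h
            · exact hfin _ h (Or.inl hi1.symm)
            · exact hfin _ h (Or.inr (Or.inr (by rw [hi1]; exact hG1)))
          · rcases hK1 with h | h
            · exact hfin _ h (Or.inr (Or.inl (by rw [hi1]; exact hG1)))
            · exact hfin _ h (Or.inl hi1.symm)
      · -- `g` in a box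
        have hgX : g ∈ H.X := (List.mem_append.1 hg).resolve_left hgC
        rw [bef_append] at he2
        have he2' : Bef H.X g e₂ := by
          rcases he2 with h | ⟨h, -⟩ | h
          · exact absurd h.left hgC
          · exact absurd h hgC
          · exact h
        have hwK : w ∉ H.K := by
          intro hc
          have := b1.xw e₂ he2'.right
          rcases hi2 with rfl | rfl
          · exact this.1.2 hc
          · exact this.2.2 hc
        refine b1.cr g hgX w hwK hb1 hb2 e₁ e₂ hi1 hi2 ?_ he2'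
        rcases he1 with he1 | he1
        · exact absurd (hQK he1) hwK
        · rw [bef_append] at he1
          rcases he1 with h | ⟨h, -⟩ | h
          · exact Or.inl h.left
          · exact Or.inl h
          · exact Or.inr h
  · change (L ++ (I ++ R)).Perm lab
    rw [List.perm_ext_iff_of_nodup ?_ hlab]
    · exact hvs
    · have hn := b1.nd
      rw [hW] at hn
      refine hn.sublist ?_
      refine List.Sublist.append (List.Sublist.refl _) ?_
      refine List.Sublist.cons _ ?_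
      exact List.Sublist.append (List.Sublist.refl _) (List.sublist_cons_self _ _)
  · change ((H.C ++ H.X) ++ (Q₁ ++ Q₂)).Perm ed
    rw [List.perm_iff_count] at hXC a4 ⊢
    intro x
    have := hXC x
    have := a4 x
    simp only [List.count_append] at *
    omega

end Pool.Agent.Helper51.TT
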