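import Pool.Agent.Helper51.TT.Hull

/-!
# MP_de303a_co Q2: trees of triangles, phases
-/

namespace Pool.Agent.Helper51.TT

open Pool.Agent.Helper4.UpLoc

/-- The triangles hanging at a directed edge `(l,u)` of a 2-tree: the third vertex `v` of a
triangle at `(l,u)` satisfies `l < v < u` (constructor `M`), `u < v` (`U`) or `v < l` (`D`); `t₁`, `t₂`
hang at the two new edges, `t₃` contains the other triangles hanging at `(l,u)`. -/
inductive T2 (V : Type) : Type where
  | leaf : T2 V
  | M (v : V) (t₁ t₂ t₃ : T2 V) : T2 V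
  | U (v : V) (t₁ t₂ t₃ : T2 V) : T2 V
  | D (v : V) (t₁ t₂ t₃ : T2 V) : T2 V

namespace T2
variable {V : Type}

/-- The vertices other than the two endpoints of the root edge. -/
def labels : T2 V → List V
  | leaf => []
  | M v t₁ t₂ t₃ => v :: (t₁.labels ++ (t₂.labels ++ t₃.labels))
  | U v t₁ t₂ t₃ => v :: (t₁.labels ++ (t₂.labels ++ t₃.labels))
  | D v t₁ t₂ t₃ => v :: (t₁.labels ++ (t₂.labels ++ t₃.labels))

/-- The directed edges (lower endpoint, upper endpoint) without the root edge `(l,u)`. -/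
def edges : T2 V → V → V → List (V × V)
  | leaf, _, _ => []
  | M v t₁ t₂ t₃, l, u => (l, v) :: (v, u) :: (t₁.edges l v ++ (t₂.edges v u ++ t₃.edges l u))
  | U v t₁ t₂ t₃, l, u => (l, v) :: (u, v) :: (t₁.edges l v ++ (t₂.edges u v ++ t₃.edges l u))
  | D v t₁ t₂ t₃, l, u => (v, u) :: (v, l) :: (t₁.edges v u ++ (t₂.edges v l ++ t₃.edges l u))

/-- All edges including the root edge. -/
def allE (t : T2 V) (a b : V) : Set (V × V) := {e | e = (a, b) ∨ e ∈ t.edges a b}

theorem edges_mem (t : T2 V) : ∀ (l u : V), ∀ e ∈ t.edges l u,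
    (e.1 ∈ l :: u :: t.labels) ∧ (e.2 ∈ l :: u :: t.labels) ∧ (e.1 ∈ t.labels ∨ e.2 ∈ t.labels) := by
  induction t with
  | leaf => intro l u e he; simp [edges] at he
  | M v t₁ t₂ t₃ h1 h2 h3 =>
    intro l u e he
    simp only [edges, List.mem_cons, List.mem_append] at he
    simp only [labels, List.mem_cons, List.mem_append]
    simp only [List.mem_cons] at h1 h2 h3
    grind
  | U v t₁ t₂ t₃ h1 h2 h3 =>
    intro l u e he
    simp only [edges, List.mem_cons, List.mem_append] at he
    simp only [labels, List.mem_cons, List.mem_append]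
    simp only [List.mem_cons] at h1 h2 h3
    grind
  | D v t₁ t₂ t₃ h1 h2 h3 =>
    intro l u e he
    simp only [edges, List.mem_cons, List.mem_append] at he
    simp only [labels, List.mem_cons, List.mem_append]
    simp only [List.mem_cons] at h1 h2 h3
    grind

end T2

variable {V : Type}

/-- A phase: it adds the vertices `S`, the edges `E` to every hull whose process vertices contain
`req`; new process vertices `K`; those in `T` are put above the hull, those in `B` below it. -/
def Phase (N : V × V → V → Prop) (req S : List V) (E : List (V × V)) (K T B : List V) : Prop :=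
  ∀ H : Hl V, HOK N H → (∀ r ∈ req, r ∈ H.K) → (∀ s ∈ S, s ∉ H.W) →
    ∃ (H' : Hl V) (L R : List V), HOK N H' ∧ H'.W = L ++ (H.W ++ R) ∧
      (∀ s, (s ∈ L ∨ s ∈ R) ↔ s ∈ S) ∧ (H'.X ++ H'.C).Perm (H.X ++ (H.C ++ E)) ∧
      (∀ z, z ∈ H'.K ↔ z ∈ H.K ∨ z ∈ K) ∧ (∀ z ∈ T, z ∈ R) ∧ (∀ z ∈ B, z ∈ L)

theorem Phase.id (N : V × V → V → Prop) (req : List V) : Phase N req [] [] [] [] [] := by
  intro H hH _ _
  exact ⟨H, [], [], hH, by simp, by simp, by simp, by simp, by simp, by simp⟩

theorem Phase.weaken {N : V × V → V → Prop} {req S : List V} {E : List (V × V)} {K T B : List V}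
    (h : Phase N req S E K T B) {req' T' B' : List V} (hreq : ∀ r ∈ req, r ∈ req')
    (hT : ∀ z ∈ T', z ∈ T) (hB : ∀ z ∈ B', z ∈ B) : Phase N req' S E K T' B' := by
  intro H hH h1 h2
  obtain ⟨H', L, R, a1, a2, a3, a4, a5, a6, a7⟩ := h H hH (fun r hr => h1 r (hreq r hr)) h2
  exact ⟨H', L, R, a1, a2, a3, a4, a5, fun z hz => a6 z (hT z hz), fun z hz => a7 z (hB z hz)⟩

theorem Phase.comp {N : V × V → V → Prop} {req S₁ S₂ : List V} {E₁ E₂ : List (V × V)}
    {K₁ T₁ B₁ K₂ T₂ B₂ req₂ : List V}
    (h1 : Phase N req S₁ E₁ K₁ T₁ B₁) (h2 : Phase N req₂ S₂ E₂ K₂ T₂ B₂)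
    (hreq : ∀ r ∈ req₂, r ∈ req ∨ r ∈ K₁) (hd : ∀ s ∈ S₁, s ∉ S₂) :
    Phase N req (S₁ ++ S₂) (E₁ ++ E₂) (K₁ ++ K₂) (T₁ ++ T₂) (B₁ ++ B₂) := by
  classical
  intro H hH hr hS
  obtain ⟨H', L, R, a1, a2, a3, a4, a5, a6, a7⟩ := h1 H hH hr
    (fun s hs => hS s (List.mem_append_left _ hs))
  obtain ⟨H'', L', R', b1, b2, b3, b4, b5, b6, b7⟩ := h2 H' a1 (by
      intro r hr2
      rw [a5]
      rcases hreq r hr2 with h | h
      · exact Or.inl (hr r h)
      · exact Or.inr h) (by
      intro s hs hs'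
      rw [a2, List.mem_append, List.mem_append] at hs'
      rcases hs' with h | h | h
      · exact hd s ((a3 s).1 (Or.inl h)) hs
      · exact hS s (List.mem_append_right _ hs) h
      · exact hd s ((a3 s).1 (Or.inr h)) hs)
  refine ⟨H'', L' ++ L, R ++ R', b1, ?_, ?_, ?_, ?_, ?_, ?_⟩
  · rw [b2, a2]; simp
  · intro s
    have := a3 s
    have := b3 s
    simp only [List.mem_append]
    tauto
  · rw [List.perm_iff_count] at a4 b4 ⊢
    intro a
    have := a4 a
    have := b4 a
    simp only [List.count_append] at *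
    omega
  · intro z
    rw [b5, a5, List.mem_append]
    tauto
  · intro z hz
    rw [List.mem_append] at hz ⊢
    exact hz.imp (a6 z) (b6 z)
  · intro z hz
    rw [List.mem_append] at hz ⊢
    exact hz.symm.imp (b7 z) (a7 z)

/-- The hull of a cluster. -/
theorem Phase.hull {N : V × V → V → Prop} {w : V} {S : List V} {E : List (V × V)} {K T B : List V}
    (h : Phase N [w] S E K T B) (hw : w ∉ S) :
    ∃ Hc : Hl V, HOK N Hc ∧ (∀ x, x ∈ Hc.W ↔ x = w ∨ x ∈ S) ∧ (Hc.X ++ Hc.C).Perm E ∧
      (∀ z, z ∈ Hc.K ↔ z = w ∨ z ∈ K) := by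
  obtain ⟨H', L, R, a1, a2, a3, a4, a5, -, -⟩ := h ⟨[w], [], [], [w]⟩
    (hok_single N w [w] (by simp)) (by simp) (by
      intro s hs hs'
      simp only [List.mem_singleton] at hs'
      exact hw (hs' ▸ hs))
  refine ⟨H', a1, ?_, by simpa using a4, ?_⟩
  · intro x
    have := a3 x
    rw [a2]
    simp only [List.mem_append, List.mem_singleton]
    tauto
  · intro z
    rw [a5]
    simp

/-- Merge with a cluster above. -/
theorem clusterTop {N : V × V → V → Prop} {v w : V} {S : List V} {E : List (V × V)} {K : List V}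
    {p : Pr V} (h : Phase N [w] S E K [] []) (hw : w ∉ S) (hp : POK N p v w)
    (hd : ∀ x ∈ p.vs, x ∉ w :: S) :
    Phase N [v] (w :: (S ++ p.vs)) ((v, w) :: (E ++ (p.X ++ p.Q))) (w :: K) (w :: K) [] := by
  classical
  obtain ⟨Hc, c1, c2, c3, c4⟩ := h.hull hw
  intro H hH hr hS
  have m := merge_ok hH c1 hp (hr v (by simp)) ((c4 w).2 (Or.inl rfl)) (by
      intro x hx hx'
      rw [c2] at hx'
      rcases hx' with rfl | hx'
      · exact hS x (by simp) hx
      · exact hS x (by simp [hx']) hx) (by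
      intro x hx hx'
      exact hS x (by simp [hx]) hx') (by
      intro x hx hx'
      rw [c2] at hx'
      exact hd x hx (List.mem_cons.2 hx'))
  refine ⟨_, p.D, p.I ++ (Hc.W ++ p.U), m, rfl, ?_, ?_, ?_, ?_, by simp⟩
  · intro s
    simp only [List.mem_append, List.mem_cons, c2, Pr.vs]
    tauto
  · rw [List.perm_iff_count] at c3 ⊢
    intro a
    have := c3 a
    simp only [List.count_append, List.count_cons] at *
    omega
  · intro z
    simp only [List.mem_append, List.mem_cons, c4]
  · intro z hz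
    rw [List.mem_append, List.mem_append]
    exact Or.inr (Or.inl (c1.kw z ((c4 z).2 (List.mem_cons.1 hz))))

/-- Merge with a cluster below. -/
theorem clusterBot {N : V × V → V → Prop} {v w : V} {S : List V} {E : List (V × V)} {K : List V}
    {p : Pr V} (h : Phase N [w] S E K [] []) (hw : w ∉ S) (hp : POK N p w v)
    (hd : ∀ x ∈ p.vs, x ∉ w :: S) :
    Phase N [v] (w :: (S ++ p.vs)) ((w, v) :: (E ++ (p.X ++ p.Q))) (w :: K) [] (w :: K) := by
  classical
  obtain ⟨Hc, c1, c2, c3, c4⟩ := h.hull hw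
  intro H hH hr hS
  have m := merge_ok c1 hH hp ((c4 w).2 (Or.inl rfl)) (hr v (by simp)) (by
      intro x hx hx'
      rw [c2] at hx
      rcases hx with rfl | hx
      · exact hS x (by simp) hx'
      · exact hS x (by simp [hx]) hx') (by
      intro x hx hx'
      rw [c2] at hx'
      exact hd x hx (List.mem_cons.2 hx')) (by
      intro x hx hx'
      exact hS x (by simp [hx]) hx')
  refine ⟨_, p.D ++ (Hc.W ++ p.I), p.U, m, by simp, ?_, ?_, ?_, by simp, ?_⟩
  · intro s
    simp only [List.mem_append, List.mem_cons, c2, Pr.vs]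
    tauto
  · rw [List.perm_iff_count] at c3 ⊢
    intro a
    have := c3 a
    simp only [List.count_append, List.count_cons] at *
    omega
  · intro z
    simp only [List.mem_append, List.mem_cons, c4]
    tauto
  · intro z hz
    rw [List.mem_append, List.mem_append]
    exact Or.inr (Or.inl (c1.kw z ((c4 z).2 (List.mem_cons.1 hz))))

/-- Put a cluster on top. -/
theorem stackTop {N : V × V → V → Prop} {w : V} {S : List V} {E : List (V × V)} {K : List V}
    (h : Phase N [w] S E K [] []) (hw : w ∉ S) :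
    Phase N [] (w :: S) E (w :: K) (w :: K) [] := by
  classical
  obtain ⟨Hc, c1, c2, c3, c4⟩ := h.hull hw
  intro H hH hr hS
  have m := stack_ok hH c1 (by
      intro x hx hx'
      rw [c2] at hx'
      exact hS x (List.mem_cons.2 hx') hx)
  refine ⟨_, [], Hc.W, m, by simp, ?_, ?_, ?_, ?_, by simp⟩
  · intro s
    simp [c2]
  · rw [List.perm_iff_count] at c3 ⊢
    intro a
    have := c3 a
    simp only [List.count_append] at *
    omega
  · intro z
    simp only [List.mem_append, List.mem_cons, c4]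
  · intro z hz
    exact c1.kw z ((c4 z).2 (List.mem_cons.1 hz))

/-- Put a cluster at the bottom. -/
theorem stackBot {N : V × V → V → Prop} {w : V} {S : List V} {E : List (V × V)} {K : List V}
    (h : Phase N [w] S E K [] []) (hw : w ∉ S) :
    Phase N [] (w :: S) E (w :: K) [] (w :: K) := by
  classical
  obtain ⟨Hc, c1, c2, c3, c4⟩ := h.hull hw
  intro H hH hr hS
  have m := stack_ok c1 hH (by
      intro x hx hx'
      rw [c2] at hx
      exact hS x (List.mem_cons.2 hx) hx')
  refine ⟨_, Hc.W, [], m, by simp, ?_, ?_, ?_, by simp, ?_⟩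
  · intro s
    simp [c2]
  · rw [List.perm_iff_count] at c3 ⊢
    intro a
    have := c3 a
    simp only [List.count_append] at *
    omega
  · intro z
    simp only [List.mem_append, List.mem_cons, c4]
    tauto
  · intro z hz
    exact c1.kw z ((c4 z).2 (List.mem_cons.1 hz))

end Pool.Agent.Helper51.TT
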