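import Pool.Agent.Helper51.TT.Draw

/-!
# MP_de303a_co Q2: 2-trees
-/

namespace Pool.Agent.Helper51.TT

open Pool.Agent.Helper4.UpLoc

/-- `TwoTreeOn G L`: the vertices of the list `L`, read from right to left, are the steps of the
construction of a 2-tree as a subgraph induced by `G`: it starts with an edge, and each new vertex
`v` is adjacent to exactly two of the earlier vertices, namely to the two endpoints `a`, `b` of an
earlier edge. -/
inductive TwoTreeOn {V : Type} (G : SimpleGraph V) : List V → Prop
  | base (a b : V) : G.Adj a b → TwoTreeOn G [a, b]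
  | step (v a b : V) (L : List V) : TwoTreeOn G L → v ∉ L → a ∈ L → b ∈ L → G.Adj a b →
      (∀ x ∈ L, G.Adj v x ↔ x = a ∨ x = b) → TwoTreeOn G (v :: L)

/-- `G` is a 2-tree. -/
def IsTwoTree {V : Type} (G : SimpleGraph V) : Prop :=
  ∃ L : List V, TwoTreeOn G L ∧ ∀ v, v ∈ L

variable {V : Type}

/-- Insertion of a triangle at an edge of a tree of triangles. -/
theorem T2.ins (k : T2 V → T2 V) (v : V) (ne : V → V → List (V × V))
    (hk1 : ∀ t, (k t).labels = v :: t.labels) (hk2 : ∀ t l u, (k t).edges l u = ne l u ++ t.edges l u)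
    (t : T2 V) : ∀ l u c d, ((c, d) = (l, u) ∨ (c, d) ∈ t.edges l u) →
      ∃ t' : T2 V, t'.labels.Perm (v :: t.labels) ∧
        (t'.edges l u).Perm (ne c d ++ t.edges l u) := by
  classical
  induction t with
  | leaf =>
    rintro l u c d (h | h)
    · obtain ⟨rfl, rfl⟩ := Prod.mk.inj h
      exact ⟨k leaf, by rw [hk1], by rw [hk2]⟩
    · simp [edges] at h
  | M w t₁ t₂ t₃ h1 h2 h3 =>
    rintro l u c d (h | h)
    · obtain ⟨rfl, rfl⟩ := Prod.mk.inj h
      exact ⟨k (M w t₁ t₂ t₃), by rw [hk1], by rw [hk2]⟩
    · simp only [edges, List.mem_cons, List.mem_append] at h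
      have h' : ((c, d) = (l, w) ∨ (c, d) ∈ t₁.edges l w) ∨
          ((c, d) = (w, u) ∨ (c, d) ∈ t₂.edges w u) ∨ (c, d) ∈ t₃.edges l u := by tauto
      rcases h' with h | h | h
      · obtain ⟨t', p, q⟩ := h1 l w c d h
        refine ⟨M w t' t₂ t₃, ?_, ?_⟩
        · rw [List.perm_iff_count] at p ⊢
          intro x
          have := p x
          simp only [labels, List.count_cons, List.count_append] at *
          omega
        · rw [List.perm_iff_count] at q ⊢
          intro x
          have := q x
          simp only [edges, List.count_cons, List.count_append] at *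
          omega
      · obtain ⟨t', p, q⟩ := h2 w u c d h
        refine ⟨M w t₁ t' t₃, ?_, ?_⟩
        · rw [List.perm_iff_count] at p ⊢
          intro x
          have := p x
          simp only [labels, List.count_cons, List.count_append] at *
          omega
        · rw [List.perm_iff_count] at q ⊢
          intro x
          have := q x
          simp only [edges, List.count_cons, List.count_append] at *
          omega
      · obtain ⟨t', p, q⟩ := h3 l u c d (Or.inr h)
        refine ⟨M w t₁ t₂ t', ?_, ?_⟩
        · rw [List.perm_iff_count] at p ⊢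
          intro x
          have := p x
          simp only [labels, List.count_cons, List.count_append] at *
          omega
        · rw [List.perm_iff_count] at q ⊢
          intro x
          have := q x
          simp only [edges, List.count_cons, List.count_append] at *
          omega
  | U w t₁ t₂ t₃ h1 h2 h3 =>
    rintro l u c d (h | h)
    · obtain ⟨rfl, rfl⟩ := Prod.mk.inj h
      exact ⟨k (U w t₁ t₂ t₃), by rw [hk1], by rw [hk2]⟩
    · simp only [edges, List.mem_cons, List.mem_append] at h
      have h' : ((c, d) = (l, w) ∨ (c, d) ∈ t₁.edges l w) ∨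
          ((c, d) = (u, w) ∨ (c, d) ∈ t₂.edges u w) ∨ (c, d) ∈ t₃.edges l u := by tauto
      rcases h' with h | h | h
      · obtain ⟨t', p, q⟩ := h1 l w c d h
        refine ⟨U w t' t₂ t₃, ?_, ?_⟩
        · rw [List.perm_iff_count] at p ⊢
          intro x
          have := p x
          simp only [labels, List.count_cons, List.count_append] at *
          omega
        · rw [List.perm_iff_count] at q ⊢
          intro x
          have := q x
          simp only [edges, List.count_cons, List.count_append] at *
          omega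
      · obtain ⟨t', p, q⟩ := h2 u w c d h
        refine ⟨U w t₁ t' t₃, ?_, ?_⟩
        · rw [List.perm_iff_count] at p ⊢
          intro x
          have := p x
          simp only [labels, List.count_cons, List.count_append] at *
          omega
        · rw [List.perm_iff_count] at q ⊢
          intro x
          have := q x
          simp only [edges, List.count_cons, List.count_append] at *
          omega
      · obtain ⟨t', p, q⟩ := h3 l u c d (Or.inr h)
        refine ⟨U w t₁ t₂ t', ?_, ?_⟩
        · rw [List.perm_iff_count] at p ⊢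
          intro x
          have := p x
          simp only [labels, List.count_cons, List.count_append] at *
          omega
        · rw [List.perm_iff_count] at q ⊢
          intro x
          have := q x
          simp only [edges, List.count_cons, List.count_append] at *
          omega
  | D w t₁ t₂ t₃ h1 h2 h3 =>
    rintro l u c d (h | h)
    · obtain ⟨rfl, rfl⟩ := Prod.mk.inj h
      exact ⟨k (D w t₁ t₂ t₃), by rw [hk1], by rw [hk2]⟩
    · simp only [edges, List.mem_cons, List.mem_append] at h
      have h' : ((c, d) = (w, u) ∨ (c, d) ∈ t₁.edges w u) ∨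
          ((c, d) = (w, l) ∨ (c, d) ∈ t₂.edges w l) ∨ (c, d) ∈ t₃.edges l u := by tauto
      rcases h' with h | h | h
      · obtain ⟨t', p, q⟩ := h1 w u c d h
        refine ⟨D w t' t₂ t₃, ?_, ?_⟩
        · rw [List.perm_iff_count] at p ⊢
          intro x
          have := p x
          simp only [labels, List.count_cons, List.count_append] at *
          omega
        · rw [List.perm_iff_count] at q ⊢
          intro x
          have := q x
          simp only [edges, List.count_cons, List.count_append] at *
          omega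
      · obtain ⟨t', p, q⟩ := h2 w l c d h
        refine ⟨D w t₁ t' t₃, ?_, ?_⟩
        · rw [List.perm_iff_count] at p ⊢
          intro x
          have := p x
          simp only [labels, List.count_cons, List.count_append] at *
          omega
        · rw [List.perm_iff_count] at q ⊢
          intro x
          have := q x
          simp only [edges, List.count_cons, List.count_append] at *
          omega
      · obtain ⟨t', p, q⟩ := h3 l u c d (Or.inr h)
        refine ⟨D w t₁ t₂ t', ?_, ?_⟩
        · rw [List.perm_iff_count] at p ⊢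
          intro x
          have := p x
          simp only [labels, List.count_cons, List.count_append] at *
          omega
        · rw [List.perm_iff_count] at q ⊢
          intro x
          have := q x
          simp only [edges, List.count_cons, List.count_append] at *
          omega

/-- What the tree of triangles must satisfy. -/
def Good (A : V → V → Prop) (L : List V) (t : T2 V) (a b : V) : Prop :=
  (a :: b :: t.labels).Nodup ∧ (∀ v, v ∈ a :: b :: t.labels ↔ v ∈ L) ∧
    ∀ x y, (x, y) ∈ t.allE a b ↔ x ∈ L ∧ y ∈ L ∧ A x y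

theorem good_ins {A : V → V → Prop} {L : List V} {t : T2 V} {a b : V} (h : Good A L t a b)
    {v c d : V} (hv : v ∉ L) (hc : c ∈ L) (hd : d ∈ L) (hA : A c d)
    (k : T2 V → T2 V) (ne : V → V → List (V × V))
    (hk1 : ∀ t, (k t).labels = v :: t.labels) (hk2 : ∀ t l u, (k t).edges l u = ne l u ++ t.edges l u)
    (hne : ∀ x y, (x, y) ∈ ne c d ↔ ((x = v ∧ y ∈ v :: L) ∨ (y = v ∧ x ∈ v :: L)) ∧ A x y) :
    ∃ t' : T2 V, Good A (v :: L) t' a b := by
  classical
  obtain ⟨h1, h2, h3⟩ := h
  obtain ⟨t', p, q⟩ := T2.ins k v ne hk1 hk2 t a b c d ((h3 c d).2 ⟨hc, hd, hA⟩)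
  have hp : (a :: b :: t'.labels).Perm (v :: a :: b :: t.labels) := by
    rw [List.perm_iff_count] at p ⊢
    intro x
    have := p x
    simp only [List.count_cons] at *
    omega
  refine ⟨t', ?_, ?_, ?_⟩
  · rw [hp.nodup_iff, List.nodup_cons]
    exact ⟨fun h => hv ((h2 v).1 h), h1⟩
  · intro w
    rw [hp.mem_iff, List.mem_cons, h2, List.mem_cons]
  · intro x y
    have e1 : (x, y) ∈ t'.allE a b ↔ (x, y) ∈ ne c d ∨ (x, y) ∈ t.allE a b := by
      change (x, y) = (a, b) ∨ (x, y) ∈ t'.edges a b ↔
        _ ∨ ((x, y) = (a, b) ∨ (x, y) ∈ t.edges a b)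
      rw [q.mem_iff, List.mem_append]
      tauto
    rw [e1, h3, hne]
    simp only [List.mem_cons]
    constructor
    · rintro (⟨⟨rfl, h⟩ | ⟨rfl, h⟩, h'⟩ | ⟨hx, hy, h⟩)
      · exact ⟨Or.inl rfl, h, h'⟩
      · exact ⟨h, Or.inl rfl, h'⟩
      · exact ⟨Or.inr hx, Or.inr hy, h⟩
    · rintro ⟨rfl | hx, hy, h⟩
      · exact Or.inl ⟨Or.inl ⟨rfl, hy⟩, h⟩
      · rcases hy with rfl | hy
        · exact Or.inl ⟨Or.inr ⟨rfl, Or.inr hx⟩, h⟩
        · exact Or.inr ⟨hx, hy, h⟩

theorem exists_tree {A : V → V → Prop} (hdag : ∀ v, ¬ Relation.TransGen A v v) {L : List V}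
    (hL : TwoTreeOn (SimpleGraph.fromRel A) L) : ∃ (t : T2 V) (a b : V), Good A L t a b := by
  have a1 : ∀ x, ¬ A x x := fun x h => hdag x (Relation.TransGen.single h)
  have a2 : ∀ x y, A x y → ¬ A y x := fun x y h h' =>
    hdag x ((Relation.TransGen.single h).tail h')
  have a3 : ∀ x y z, A x y → A y z → ¬ A z x := fun x y z h h' h'' =>
    hdag x (((Relation.TransGen.single h).tail h').tail h'')
  have base : ∀ a b, A a b → ∀ L : List V, (∀ x, x ∈ L ↔ x = a ∨ x = b) → Good A L T2.leaf a b := by
    intro a b h L hL
    refine ⟨?_, ?_, ?_⟩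
    · simp only [T2.labels, List.nodup_cons, List.mem_cons, List.not_mem_nil, or_false,
        not_false_eq_true, List.nodup_nil, and_true]
      rintro rfl
      exact a1 _ h
    · intro v
      rw [hL]
      simp [T2.labels]
    · intro x y
      have : (x, y) ∈ T2.leaf.allE a b ↔ x = a ∧ y = b := by
        simp [T2.allE, T2.edges]
      rw [this, hL, hL]
      constructor
      · rintro ⟨rfl, rfl⟩
        exact ⟨Or.inl rfl, Or.inr rfl, h⟩
      · rintro ⟨rfl | rfl, rfl | rfl, h'⟩
        · exact absurd h' (a1 _)
        · exact ⟨rfl, rfl⟩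
        · exact absurd h' (a2 _ _ h)
        · exact absurd h' (a1 _)
  induction hL with
  | base a b h =>
    rw [SimpleGraph.fromRel_adj] at h
    rcases h.2 with h | h
    · exact ⟨T2.leaf, a, b, base a b h _ (by simp)⟩
    · exact ⟨T2.leaf, b, a, base b a h _ (by intro x; simp [or_comm])⟩
  | step v c d L hL hv hc hd hcd hn ih =>
    obtain ⟨t, a, b, hg⟩ := ih
    have key : ∀ c d, c ∈ L → d ∈ L → A c d → (∀ x ∈ L, (SimpleGraph.fromRel A).Adj v x ↔
        x = c ∨ x = d) → ∃ t' : T2 V, Good A (v :: L) t' a b := by
      intro c d hc hd hA hn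
      have hn' : ∀ x ∈ L, (A v x ∨ A x v) ↔ x = c ∨ x = d := by
        intro x hx
        rw [← hn x hx, SimpleGraph.fromRel_adj]
        constructor
        · intro h
          exact ⟨fun h' => hv (h' ▸ hx), h⟩
        · exact fun h => h.2
      have vc := (hn' c hc).2 (Or.inl rfl)
      have vd := (hn' d hd).2 (Or.inr rfl)
      have hcd : c ≠ d := by
        rintro rfl
        exact a1 _ hA
      rcases vc with vc | vc <;> rcases vd with vd | vd
      · -- `v` below
        refine good_ins hg hv hc hd hA (fun t => T2.D v T2.leaf T2.leaf t)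
          (fun l u => [(v, u), (v, l)]) (fun t => rfl) (fun t l u => rfl) ?_
        intro x y
        simp only [List.mem_cons, Prod.mk.injEq, List.not_mem_nil, or_false]
        constructor
        · rintro (⟨rfl, rfl⟩ | ⟨rfl, rfl⟩)
          · exact ⟨Or.inl ⟨rfl, Or.inr hd⟩, vd⟩
          · exact ⟨Or.inl ⟨rfl, Or.inr hc⟩, vc⟩
        · rintro ⟨⟨rfl, rfl | hy⟩ | ⟨rfl, rfl | hx⟩, h⟩
          · exact absurd h (a1 _)
          · rcases (hn' y hy).1 (Or.inl h) with rfl | rfl
            · exact Or.inr ⟨rfl, rfl⟩
            · exact Or.inl ⟨rfl, rfl⟩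
          · exact absurd h (a1 _)
          · rcases (hn' x hx).1 (Or.inr h) with rfl | rfl
            · exact absurd h (a2 _ _ vc)
            · exact absurd h (a2 _ _ vd)
      · exact absurd vc (a3 _ _ _ hA vd)
      · -- `v` in the middle
        refine good_ins hg hv hc hd hA (fun t => T2.M v T2.leaf T2.leaf t)
          (fun l u => [(l, v), (v, u)]) (fun t => rfl) (fun t l u => rfl) ?_
        intro x y
        simp only [List.mem_cons, Prod.mk.injEq, List.not_mem_nil, or_false]
        constructor
        · rintro (⟨rfl, rfl⟩ | ⟨rfl, rfl⟩)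
          · exact ⟨Or.inr ⟨rfl, Or.inr hc⟩, vc⟩
          · exact ⟨Or.inl ⟨rfl, Or.inr hd⟩, vd⟩
        · rintro ⟨⟨rfl, rfl | hy⟩ | ⟨rfl, rfl | hx⟩, h⟩
          · exact absurd h (a1 _)
          · rcases (hn' y hy).1 (Or.inl h) with rfl | rfl
            · exact absurd h (a2 _ _ vc)
            · exact Or.inr ⟨rfl, rfl⟩
          · exact absurd h (a1 _)
          · rcases (hn' x hx).1 (Or.inr h) with rfl | rfl
            · exact Or.inl ⟨rfl, rfl⟩
            · exact absurd h (a2 _ _ vd)
      · -- `v` above
        refine good_ins hg hv hc hd hA (fun t => T2.U v T2.leaf T2.leaf t)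
          (fun l u => [(l, v), (u, v)]) (fun t => rfl) (fun t l u => rfl) ?_
        intro x y
        simp only [List.mem_cons, Prod.mk.injEq, List.not_mem_nil, or_false]
        constructor
        · rintro (⟨rfl, rfl⟩ | ⟨rfl, rfl⟩)
          · exact ⟨Or.inr ⟨rfl, Or.inr hc⟩, vc⟩
          · exact ⟨Or.inr ⟨rfl, Or.inr hd⟩, vd⟩
        · rintro ⟨⟨rfl, rfl | hy⟩ | ⟨rfl, rfl | hx⟩, h⟩
          · exact absurd h (a1 _)
          · rcases (hn' y hy).1 (Or.inl h) with rfl | rfl
            · exact absurd h (a2 _ _ vc)
            · exact absurd h (a2 _ _ vd)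
          · exact absurd h (a1 _)
          · rcases (hn' x hx).1 (Or.inr h) with rfl | rfl
            · exact Or.inl ⟨rfl, rfl⟩
            · exact Or.inr ⟨rfl, rfl⟩
    rw [SimpleGraph.fromRel_adj] at hcd
    rcases hcd.2 with h | h
    · obtain ⟨t', ht'⟩ := key c d hc hd h hn
      exact ⟨t', a, b, ht'⟩
    · obtain ⟨t', ht'⟩ := key d c hd hc h (fun x hx => by rw [hn x hx, or_comm])
      exact ⟨t', a, b, ht'⟩

/-- **Q2**: every 2-tree DAG of maximum degree at most `Δ` has an upward drawing in which every
edge is crossed at most `4 Δ³ (Δ + 1)²` times. -/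
theorem twoTree_drawing (Δ : ℕ) (V : Type) [Fintype V] (A : V → V → Prop)
    (hdag : ∀ v, ¬ Relation.TransGen A v v) (htt : IsTwoTree (SimpleGraph.fromRel A))
    (hdeg : ∀ v, {u | A u v}.encard + {u | A v u}.encard ≤ Δ) :
    ∃ D : UpwardDrawing A, D.IsKPlanar (4 * Δ ^ 3 * (Δ + 1) ^ 2) := by
  classical
  obtain ⟨L, hL, hall⟩ := htt
  obtain ⟨t, a, b, h1, h2, h3⟩ := exists_tree hdag hL
  refine tree_drawing t a b Δ h1 (fun v => (h2 v).2 (hall v)) ?_ A
    (fun u v h => (h3 u v).2 ⟨hall u, hall v, h⟩)
  intro v
  have hsub : {e | e ∈ t.allE a b ∧ Inc v e} ⊆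
      (fun u => (u, v)) '' {u | A u v} ∪ (fun u => (v, u)) '' {u | A v u} := by
    rintro ⟨x, y⟩ ⟨he, hi⟩
    have hA := ((h3 x y).1 he).2.2
    rcases hi with hi | hi
    · change v = x at hi
      subst hi
      exact Or.inr ⟨y, hA, rfl⟩
    · change v = y at hi
      subst hi
      exact Or.inl ⟨x, hA, rfl⟩
  have : ({e | e ∈ t.allE a b ∧ Inc v e}.ncard : ℕ∞) ≤ Δ := by
    rw [Set.Finite.cast_ncard_eq (Set.toFinite _)]
    refine (Set.encard_le_encard hsub).trans ((Set.encard_union_le _ _).trans ?_)
    exact (add_le_add (Set.encard_image_le _ _) (Set.encard_image_le _ _)).trans (hdeg v)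
  exact_mod_cast this

end Pool.Agent.Helper51.TT
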